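import Mathlib

/-! Gaussian kernels: Fourier positivity and averaging over the slope. -/

set_option autoImplicit false

namespace Pool.Agent.X114.WM

open Finset MeasureTheory Filter Topology

/-- the Gaussian density of width `t`. -/
noncomputable def gs (t x : ℝ) : ℝ := (1 / t) * Real.exp (-(Real.pi * x ^ 2 / t ^ 2))

/-- the Gaussian density with parameter `w = t ^ 2`. -/
noncomputable def ph (w u : ℝ) : ℝ := (1 / Real.sqrt w) * Real.exp (-(Real.pi * u ^ 2 / w))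

theorem gs_pos {t : ℝ} (ht : 0 < t) (x : ℝ) : 0 < gs t x := by
  unfold gs; positivity

theorem integrable_cos_gs {t : ℝ} (ht : 0 < t) (x : ℝ) :
    Integrable (fun α : ℝ => Real.cos (2 * Real.pi * α * x) *
      Real.exp (-(Real.pi * t ^ 2 * α ^ 2))) := by
  have h1 : Integrable (fun α : ℝ => Real.exp (-(Real.pi * t ^ 2) * α ^ 2)) :=
    integrable_exp_neg_mul_sq (by positivity)
  refine Integrable.mono' h1 (by fun_prop) (ae_of_all _ fun α => ?_)
  rw [norm_mul, Real.norm_eq_abs, Real.norm_eq_abs, Real.abs_exp]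
  have h2 : -(Real.pi * t ^ 2 * α ^ 2) = -(Real.pi * t ^ 2) * α ^ 2 := by ring
  rw [h2]
  calc |Real.cos (2 * Real.pi * α * x)| * Real.exp (-(Real.pi * t ^ 2) * α ^ 2)
      ≤ 1 * Real.exp (-(Real.pi * t ^ 2) * α ^ 2) :=
        mul_le_mul_of_nonneg_right (Real.abs_cos_le_one _) (Real.exp_pos _).le
    _ = _ := one_mul _

theorem gs_cos {t : ℝ} (ht : 0 < t) (x : ℝ) :
    ∫ α : ℝ, Real.cos (2 * Real.pi * α * x) * Real.exp (-(Real.pi * t ^ 2 * α ^ 2)) = gs t x := by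
  have hb : 0 < ((Real.pi * t ^ 2 : ℝ) : ℂ).re := by
    rw [Complex.ofReal_re]; positivity
  have h := fourierIntegral_gaussian hb ((2 * Real.pi * x : ℝ) : ℂ)
  have h0 : ∀ α : ℝ, Complex.exp (Complex.I * ((2 * Real.pi * x : ℝ) : ℂ) * (α : ℂ)) *
        Complex.exp (-((Real.pi * t ^ 2 : ℝ) : ℂ) * (α : ℂ) ^ 2) =
      Complex.exp (((2 * Real.pi * α * x : ℝ) : ℂ) * Complex.I) *
        ((Real.exp (-(Real.pi * t ^ 2 * α ^ 2)) : ℝ) : ℂ) := by
    intro α
    have e1 : Complex.I * ((2 * Real.pi * x : ℝ) : ℂ) * (α : ℂ) =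
        ((2 * Real.pi * α * x : ℝ) : ℂ) * Complex.I := by push_cast; ring
    have e2 : -((Real.pi * t ^ 2 : ℝ) : ℂ) * (α : ℂ) ^ 2 =
        ((-(Real.pi * t ^ 2 * α ^ 2) : ℝ) : ℂ) := by push_cast; ring
    rw [e1, e2, ← Complex.ofReal_exp]
  have hi : Integrable (fun α : ℝ => Complex.exp (Complex.I * ((2 * Real.pi * x : ℝ) : ℂ) * (α : ℂ)) *
        Complex.exp (-((Real.pi * t ^ 2 : ℝ) : ℂ) * (α : ℂ) ^ 2)) := by
    have h1 : Integrable (fun α : ℝ => Real.exp (-(Real.pi * t ^ 2) * α ^ 2)) :=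
      integrable_exp_neg_mul_sq (by positivity)
    refine Integrable.mono' h1 (by fun_prop) (ae_of_all _ fun α => ?_)
    rw [h0 α, norm_mul, Complex.norm_exp_ofReal_mul_I, one_mul, Complex.norm_real,
      Real.norm_eq_abs, Real.abs_exp]
    apply le_of_eq
    congr 1
    ring
  have h1 : ∀ α : ℝ, Real.cos (2 * Real.pi * α * x) * Real.exp (-(Real.pi * t ^ 2 * α ^ 2)) =
      RCLike.re (Complex.exp (Complex.I * ((2 * Real.pi * x : ℝ) : ℂ) * (α : ℂ)) *
        Complex.exp (-((Real.pi * t ^ 2 : ℝ) : ℂ) * (α : ℂ) ^ 2)) := by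
    intro α
    rw [h0 α, RCLike.re_eq_complex_re, Complex.re_mul_ofReal, Complex.exp_ofReal_mul_I_re]
  rw [integral_congr_ae (ae_of_all _ h1), integral_re hi, h]
  have h2 : ((Real.pi : ℂ) / ((Real.pi * t ^ 2 : ℝ) : ℂ)) ^ (1 / 2 : ℂ) = ((1 / t : ℝ) : ℂ) := by
    have e1 : (Real.pi : ℂ) / ((Real.pi * t ^ 2 : ℝ) : ℂ) = (((1 / t) ^ 2 : ℝ) : ℂ) := by
      have : (t : ℂ) ≠ 0 := by exact_mod_cast ht.ne'
      have h3 : (Real.pi : ℂ) ≠ 0 := by exact_mod_cast Real.pi_ne_zero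
      push_cast
      field_simp
    rw [e1, show (1 / 2 : ℂ) = ((1 / 2 : ℝ) : ℂ) by push_cast; ring,
      ← Complex.ofReal_cpow (by positivity), ← Real.sqrt_eq_rpow, Real.sqrt_sq (by positivity)]
  have h3 : Complex.exp (-((2 * Real.pi * x : ℝ) : ℂ) ^ 2 / (4 * ((Real.pi * t ^ 2 : ℝ) : ℂ))) =
      ((Real.exp (-(Real.pi * x ^ 2 / t ^ 2)) : ℝ) : ℂ) := by
    rw [Complex.ofReal_exp]
    congr 1
    have : (t : ℂ) ≠ 0 := by exact_mod_cast ht.ne'
    have h3 : (Real.pi : ℂ) ≠ 0 := by exact_mod_cast Real.pi_ne_zero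
    push_cast
    field_simp
    ring
  rw [h2, h3, ← Complex.ofReal_mul]
  rfl

/-- the difference of two Gaussian kernels, as a cosine transform -/
theorem gs_sub {τ H : ℝ} (hτ : 0 < τ) (hH : 0 < H) (x : ℝ) :
    gs τ x - gs H x = ∫ α : ℝ, Real.cos (2 * Real.pi * α * x) *
      (Real.exp (-(Real.pi * τ ^ 2 * α ^ 2)) - Real.exp (-(Real.pi * H ^ 2 * α ^ 2))) := by
  rw [← gs_cos hτ, ← gs_cos hH, ← integral_sub (integrable_cos_gs hτ x) (integrable_cos_gs hH x)]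
  congr 1
  funext α
  ring

theorem integrable_gs_sub {τ H : ℝ} (hτ : 0 < τ) (hH : 0 < H) (x : ℝ) :
    Integrable (fun α : ℝ => Real.cos (2 * Real.pi * α * x) *
      (Real.exp (-(Real.pi * τ ^ 2 * α ^ 2)) - Real.exp (-(Real.pi * H ^ 2 * α ^ 2)))) := by
  have := (integrable_cos_gs hτ x).sub (integrable_cos_gs hH x)
  refine this.congr (ae_of_all _ fun α => ?_)
  simp only [Pi.sub_apply]
  ring

theorem cs_add {ι : Type*} (s : Finset ι) (x : ι → ℝ) (a m : ℝ) :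
    ∑ i ∈ s, ∑ j ∈ s, Real.cos (a * (x i + x j)) * m =
      ((∑ i ∈ s, Real.cos (a * x i)) ^ 2 - (∑ i ∈ s, Real.sin (a * x i)) ^ 2) * m := by
  rw [sq, sq, sum_mul_sum, sum_mul_sum, ← sum_sub_distrib, sum_mul]
  refine sum_congr rfl fun i _ => ?_
  rw [← sum_sub_distrib, sum_mul]
  refine sum_congr rfl fun j _ => ?_
  rw [mul_add, Real.cos_add]

theorem cs_sub {ι : Type*} (s : Finset ι) (x : ι → ℝ) (a m : ℝ) :
    ∑ i ∈ s, ∑ j ∈ s, Real.cos (a * (x i - x j)) * m =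
      ((∑ i ∈ s, Real.cos (a * x i)) ^ 2 + (∑ i ∈ s, Real.sin (a * x i)) ^ 2) * m := by
  rw [sq, sq, sum_mul_sum, sum_mul_sum, ← sum_add_distrib, sum_mul]
  refine sum_congr rfl fun i _ => ?_
  rw [← sum_add_distrib, sum_mul]
  refine sum_congr rfl fun j _ => ?_
  rw [mul_sub, Real.cos_sub]

/-- Fourier positivity: sums are dominated by differences. -/
theorem gs_pd {ι : Type*} (s : Finset ι) (x : ι → ℝ) {τ H : ℝ} (hτ : 0 < τ) (hH : τ ≤ H) :
    |∑ i ∈ s, ∑ j ∈ s, (gs τ (x i + x j) - gs H (x i + x j))| ≤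
      ∑ i ∈ s, ∑ j ∈ s, (gs τ (x i - x j) - gs H (x i - x j)) := by
  have hH0 : 0 < H := lt_of_lt_of_le hτ hH
  set m : ℝ → ℝ := fun α => Real.exp (-(Real.pi * τ ^ 2 * α ^ 2)) -
    Real.exp (-(Real.pi * H ^ 2 * α ^ 2)) with hm
  have hm0 : ∀ α, 0 ≤ m α := by
    intro α
    rw [hm]
    simp only
    rw [sub_nonneg, Real.exp_le_exp, neg_le_neg_iff]
    have : τ ^ 2 ≤ H ^ 2 := pow_le_pow_left₀ hτ.le hH 2
    have h2 := mul_le_mul_of_nonneg_right (mul_le_mul_of_nonneg_left this Real.pi_pos.le)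
      (sq_nonneg α)
    exact h2
  have hi := fun y => integrable_gs_sub hτ hH0 y
  have e1 : ∑ i ∈ s, ∑ j ∈ s, (gs τ (x i + x j) - gs H (x i + x j)) =
      ∫ α : ℝ, ((∑ i ∈ s, Real.cos (2 * Real.pi * α * x i)) ^ 2 -
        (∑ i ∈ s, Real.sin (2 * Real.pi * α * x i)) ^ 2) * m α := by
    have : ∀ i ∈ s, ∀ j ∈ s, gs τ (x i + x j) - gs H (x i + x j) =
        ∫ α : ℝ, Real.cos (2 * Real.pi * α * (x i + x j)) * m α := fun i _ j _ => gs_sub hτ hH0 _
    rw [sum_congr rfl fun i hi => sum_congr rfl fun j hj => this i hi j hj]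
    rw [sum_congr rfl fun i _ => (integral_finsetSum s fun j _ => hi (x i + x j)).symm]
    rw [← integral_finsetSum s fun i _ => integrable_finsetSum s fun j _ => hi (x i + x j)]
    congr 1
    funext α
    exact cs_add s x _ _
  have e2 : ∑ i ∈ s, ∑ j ∈ s, (gs τ (x i - x j) - gs H (x i - x j)) =
      ∫ α : ℝ, ((∑ i ∈ s, Real.cos (2 * Real.pi * α * x i)) ^ 2 +
        (∑ i ∈ s, Real.sin (2 * Real.pi * α * x i)) ^ 2) * m α := by
    have : ∀ i ∈ s, ∀ j ∈ s, gs τ (x i - x j) - gs H (x i - x j) =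
        ∫ α : ℝ, Real.cos (2 * Real.pi * α * (x i - x j)) * m α := fun i _ j _ => gs_sub hτ hH0 _
    rw [sum_congr rfl fun i hi => sum_congr rfl fun j hj => this i hi j hj]
    rw [sum_congr rfl fun i _ => (integral_finsetSum s fun j _ => hi (x i - x j)).symm]
    rw [← integral_finsetSum s fun i _ => integrable_finsetSum s fun j _ => hi (x i - x j)]
    congr 1
    funext α
    exact cs_sub s x _ _
  have i2 : Integrable (fun α : ℝ => ((∑ i ∈ s, Real.cos (2 * Real.pi * α * x i)) ^ 2 +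
        (∑ i ∈ s, Real.sin (2 * Real.pi * α * x i)) ^ 2) * m α) := by
    have h1 : Integrable (fun α : ℝ => ∑ i ∈ s, ∑ j ∈ s,
        Real.cos (2 * Real.pi * α * (x i - x j)) * m α) :=
      integrable_finsetSum s fun i _ => integrable_finsetSum s fun j _ => hi (x i - x j)
    exact h1.congr (ae_of_all _ fun α => cs_sub s x _ _)
  rw [e1, e2]
  refine le_trans (abs_integral_le_integral_abs) ?_
  apply integral_mono_of_nonneg (ae_of_all _ fun α => abs_nonneg _) i2 (ae_of_all _ fun α => ?_)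
  simp only
  rw [abs_mul, abs_of_nonneg (hm0 α)]
  apply mul_le_mul_of_nonneg_right _ (hm0 α)
  rw [abs_le]
  constructor <;> nlinarith [sq_nonneg (∑ i ∈ s, Real.cos (2 * Real.pi * α * x i)),
    sq_nonneg (∑ i ∈ s, Real.sin (2 * Real.pi * α * x i))]

theorem ph_eq {t : ℝ} (ht : 0 < t) (u v : ℝ) (l : ℝ) :
    Real.exp (-(Real.pi * l ^ 2)) * gs t (u + l * v) =
      (1 / t) * Real.exp (-(Real.pi * u ^ 2 / (t ^ 2 + v ^ 2))) *
        Real.exp (-(Real.pi * (t ^ 2 + v ^ 2) / t ^ 2) * (l + u * v / (t ^ 2 + v ^ 2)) ^ 2) := by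
  have h1 : 0 < t ^ 2 + v ^ 2 := by positivity
  unfold gs
  rw [mul_left_comm, mul_assoc, ← Real.exp_add, ← Real.exp_add]
  congr 2
  field_simp
  ring

theorem integrable_ph {t : ℝ} (ht : 0 < t) (u v : ℝ) :
    Integrable (fun l : ℝ => Real.exp (-(Real.pi * l ^ 2)) * gs t (u + l * v)) := by
  have h1 : 0 < t ^ 2 + v ^ 2 := by positivity
  have h2 : Integrable (fun l : ℝ => Real.exp (-(Real.pi * (t ^ 2 + v ^ 2) / t ^ 2) * l ^ 2)) :=
    integrable_exp_neg_mul_sq (by positivity)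
  have h3 := (h2.comp_add_right (u * v / (t ^ 2 + v ^ 2))).const_mul
    ((1 / t) * Real.exp (-(Real.pi * u ^ 2 / (t ^ 2 + v ^ 2))))
  refine h3.congr (ae_of_all _ fun l => ?_)
  exact (ph_eq ht u v l).symm

theorem integral_ph {t : ℝ} (ht : 0 < t) (u v : ℝ) :
    ∫ l : ℝ, Real.exp (-(Real.pi * l ^ 2)) * gs t (u + l * v) = ph (t ^ 2 + v ^ 2) u := by
  have h1 : 0 < t ^ 2 + v ^ 2 := by positivity
  rw [integral_congr_ae (ae_of_all _ fun l => ph_eq ht u v l), integral_const_mul,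
    integral_add_right_eq_self (fun l : ℝ => Real.exp (-(Real.pi * (t ^ 2 + v ^ 2) / t ^ 2) * l ^ 2)),
    integral_gaussian]
  unfold ph
  have h2 : Real.pi / (Real.pi * (t ^ 2 + v ^ 2) / t ^ 2) = t ^ 2 / (t ^ 2 + v ^ 2) := by
    field_simp
  rw [h2, Real.sqrt_div (by positivity), Real.sqrt_sq ht.le]
  have h3 : 0 < Real.sqrt (t ^ 2 + v ^ 2) := Real.sqrt_pos.mpr h1
  field_simp

end Pool.Agent.X114.WM
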