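import Mathlib
import Pool.Agent.X114.WM.Gauss

/-! The averaged energy of a separated set. -/

set_option autoImplicit false

namespace Pool.Agent.X114.WM

open Finset MeasureTheory Filter Topology

theorem side_sum {B X : ℕ} (hB : 1 ≤ B) {f : ℝ → ℝ} (hf : ∀ x y : ℝ, 0 < x → x ≤ y → f y ≤ f x)
    (hf0 : ∀ x, 0 ≤ f x) (T : Finset ℕ) (d : ℕ → ℕ) (hd1 : ∀ x ∈ T, B ≤ d x)
    (hdX : ∀ x ∈ T, d x ≤ X) (hsep : ∀ x ∈ T, ∀ y ∈ T, x ≠ y → d x + B ≤ d y ∨ d y + B ≤ d x) :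
    ∑ x ∈ T, f (d x) ≤ ∑ i ∈ Icc 1 X, f ((i : ℝ) * B) := by
  have hBr : (0 : ℝ) < B := by exact_mod_cast hB
  have hinj : Set.InjOn (fun x => d x / B) T := by
    intro x hx y hy hxy
    by_contra hne
    simp only at hxy
    rcases hsep x hx y hy hne with h | h
    · have := Nat.div_le_div_right (c := B) h
      rw [Nat.add_div_right _ (by omega)] at this
      omega
    · have := Nat.div_le_div_right (c := B) h
      rw [Nat.add_div_right _ (by omega)] at this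
      omega
  calc ∑ x ∈ T, f (d x) ≤ ∑ x ∈ T, f (((d x / B : ℕ) : ℝ) * B) := by
        refine sum_le_sum fun x hx => hf _ _ ?_ ?_
        · have : 1 ≤ d x / B := (Nat.one_le_div_iff (by omega)).mpr (hd1 x hx)
          have h2 : (1 : ℝ) ≤ ((d x / B : ℕ) : ℝ) := by exact_mod_cast this
          positivity
        · exact_mod_cast Nat.div_mul_le_self (d x) B
    _ = ∑ i ∈ T.image (fun x => d x / B), f ((i : ℝ) * B) := by
        rw [sum_image hinj]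
    _ ≤ ∑ i ∈ Icc 1 X, f ((i : ℝ) * B) := by
        apply sum_le_sum_of_subset_of_nonneg
        · intro i hi
          obtain ⟨x, hx, rfl⟩ := mem_image.mp hi
          rw [mem_Icc]
          exact ⟨(Nat.one_le_div_iff (by omega)).mpr (hd1 x hx),
            le_trans (Nat.div_le_self _ _) (hdX x hx)⟩
        · intro i _ _
          exact hf0 _

theorem sep_sum {A : Finset ℕ} {B X : ℕ} (hB : 1 ≤ B) (hX : ∀ a ∈ A, a ≤ X)
    (hsep : ∀ a ∈ A, ∀ a' ∈ A, a < a' → a + B ≤ a') {f : ℝ → ℝ}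
    (hf : ∀ x y : ℝ, 0 < x → x ≤ y → f y ≤ f x) (hf0 : ∀ x, 0 ≤ f x) {a : ℕ} (ha : a ∈ A) :
    ∑ a' ∈ A.erase a, f |(a : ℝ) - a'| ≤ 2 * ∑ i ∈ Icc 1 X, f ((i : ℝ) * B) := by
  have h1 : ∑ a' ∈ A.filter (fun a' => a' < a), f |(a : ℝ) - a'| ≤
      ∑ i ∈ Icc 1 X, f ((i : ℝ) * B) := by
    have h := side_sum (X := X) hB hf hf0 (A.filter (fun a' => a' < a)) (fun a' => a - a')
      (by
        intro x hx
        rw [mem_filter] at hx
        have := hsep x hx.1 a ha hx.2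
        omega)
      (by
        intro x hx
        have := hX a ha
        omega)
      (by
        intro x hx y hy hne
        rw [mem_filter] at hx hy
        rcases lt_or_gt_of_ne hne with h | h
        · have := hsep x hx.1 y hy.1 h
          right; omega
        · have := hsep y hy.1 x hx.1 h
          left; omega)
    refine le_trans (le_of_eq (sum_congr rfl fun x hx => ?_)) h
    rw [mem_filter] at hx
    have h2 : ((x : ℕ) : ℝ) < a := by exact_mod_cast hx.2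
    rw [abs_of_pos (by linarith), Nat.cast_sub hx.2.le]
  have h2 : ∑ a' ∈ A.filter (fun a' => a < a'), f |(a : ℝ) - a'| ≤
      ∑ i ∈ Icc 1 X, f ((i : ℝ) * B) := by
    have h := side_sum (X := X) hB hf hf0 (A.filter (fun a' => a < a')) (fun a' => a' - a)
      (by
        intro x hx
        rw [mem_filter] at hx
        have := hsep a ha x hx.1 hx.2
        omega)
      (by
        intro x hx
        rw [mem_filter] at hx
        have := hX x hx.1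
        omega)
      (by
        intro x hx y hy hne
        rw [mem_filter] at hx hy
        rcases lt_or_gt_of_ne hne with h | h
        · have := hsep x hx.1 y hy.1 h
          left; omega
        · have := hsep y hy.1 x hx.1 h
          right; omega)
    refine le_trans (le_of_eq (sum_congr rfl fun x hx => ?_)) h
    rw [mem_filter] at hx
    have h2 : (a : ℝ) < ((x : ℕ) : ℝ) := by exact_mod_cast hx.2
    rw [abs_of_neg (by linarith), Nat.cast_sub hx.2.le]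
    congr 1
    ring
  have h3 : A.erase a = A.filter (fun a' => a' < a) ∪ A.filter (fun a' => a < a') := by
    ext x
    simp only [mem_erase, mem_union, mem_filter]
    constructor
    · rintro ⟨h1, h2⟩
      rcases lt_or_gt_of_ne h1 with h | h
      · exact Or.inl ⟨h2, h⟩
      · exact Or.inr ⟨h2, h⟩
    · rintro (⟨h1, h2⟩ | ⟨h1, h2⟩)
      · exact ⟨h2.ne, h1⟩
      · exact ⟨h2.ne', h1⟩
  have h4 : Disjoint (A.filter (fun a' => a' < a)) (A.filter (fun a' => a < a')) := by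
    rw [disjoint_left]
    intro x hx hx'
    rw [mem_filter] at hx hx'
    exact absurd hx.2 (not_lt.mpr hx'.2.le)
  rw [h3, sum_union h4]
  linarith

theorem gauss_sum {B : ℕ} (hB : 1 ≤ B) (X : ℕ) {w : ℝ} (hw : 0 < w) :
    ∑ i ∈ Icc 1 X, Real.exp (-(Real.pi * ((i : ℝ) * B) ^ 2 / w)) ≤ Real.sqrt w / (2 * B) := by
  have hBr : (0 : ℝ) < B := by exact_mod_cast hB
  set b : ℝ := Real.pi * B ^ 2 / w with hb
  have hb0 : 0 < b := by rw [hb]; positivity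
  have hanti : AntitoneOn (fun x : ℝ => Real.exp (-b * x ^ 2)) (Set.Icc 0 (0 + (X : ℝ))) := by
    intro x hx y hy hxy
    simp only
    rw [Real.exp_le_exp]
    have : x ^ 2 ≤ y ^ 2 := pow_le_pow_left₀ hx.1 hxy 2
    nlinarith
  have h1 := hanti.sum_le_integral
  have h2 : ∫ x in (0 : ℝ)..(0 + (X : ℝ)), Real.exp (-b * x ^ 2) ≤
      ∫ x in Set.Ioi (0 : ℝ), Real.exp (-b * x ^ 2) := by
    rw [intervalIntegral.integral_of_le (by simp)]
    apply setIntegral_mono_set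
    · exact (integrable_exp_neg_mul_sq hb0).integrableOn
    · exact ae_of_all _ fun x => (Real.exp_pos _).le
    · exact (Set.Ioc_subset_Ioi_self).eventuallyLE
  rw [integral_gaussian_Ioi] at h2
  have h3 : Real.sqrt (Real.pi / b) / 2 = Real.sqrt w / (2 * B) := by
    have e1 : Real.pi / b = w / B ^ 2 := by
      rw [hb]; field_simp
    rw [e1, Real.sqrt_div hw.le, Real.sqrt_sq hBr.le]
    field_simp
  rw [h3] at h2
  refine le_trans (le_of_eq ?_) (le_trans h1 h2)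
  rw [range_eq_Ico, sum_Ico_add' (fun i : ℕ => Real.exp (-b * (0 + (i : ℝ)) ^ 2)) 0 X 1]
  have h4 : Ico (0 + 1) (X + 1) = Icc 1 X := by
    ext i; simp only [mem_Ico, mem_Icc]; omega
  rw [h4]
  refine sum_congr rfl fun i _ => ?_
  congr 1
  rw [hb]
  ring

theorem exp_sum {A : Finset ℕ} {B X : ℕ} (hB : 1 ≤ B) (hX : ∀ a ∈ A, a ≤ X)
    (hsep : ∀ a ∈ A, ∀ a' ∈ A, a < a' → a + B ≤ a') {w : ℝ} (hw : 0 < w) {a : ℕ} (ha : a ∈ A) :
    ∑ a' ∈ A, Real.exp (-(Real.pi * ((a : ℝ) - a') ^ 2 / w)) ≤ 1 + Real.sqrt w / B := by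
  have hBr : (0 : ℝ) < B := by exact_mod_cast hB
  have h := sep_sum (f := fun x : ℝ => Real.exp (-(Real.pi * x ^ 2 / w))) hB hX hsep
    (by
      intro x y hx hxy
      rw [Real.exp_le_exp, neg_le_neg_iff]
      have h1 : x ^ 2 ≤ y ^ 2 := pow_le_pow_left₀ hx.le hxy 2
      gcongr)
    (fun x => (Real.exp_pos _).le) ha
  simp only [sq_abs] at h
  have h2 := gauss_sum hB X hw
  rw [← add_sum_erase A _ ha]
  have h3 : Real.exp (-(Real.pi * ((a : ℝ) - a) ^ 2 / w)) = 1 := by simp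
  rw [h3]
  have h4 : Real.sqrt w / B = 2 * (Real.sqrt w / (2 * B)) := by field_simp
  rw [h4]
  linarith

theorem inner_zero {A : Finset ℕ} {B X : ℕ} (hB : 1 ≤ B) (hX : ∀ a ∈ A, a ≤ X)
    (hsep : ∀ a ∈ A, ∀ a' ∈ A, a < a' → a + B ≤ a') {τ H : ℝ} (hτ : 0 < τ) (hH : τ ≤ H)
    {a : ℕ} (ha : a ∈ A) :
    ∑ a' ∈ A, (ph (τ ^ 2 + 0 ^ 2) ((a : ℝ) - a') - ph (H ^ 2 + 0 ^ 2) ((a : ℝ) - a')) ≤
      1 / τ + 1 / B := by
  have hBr : (0 : ℝ) < B := by exact_mod_cast hB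
  have hH0 : 0 < H := lt_of_lt_of_le hτ hH
  have h1 := exp_sum hB hX hsep (w := τ ^ 2) (by positivity) ha
  rw [Real.sqrt_sq hτ.le] at h1
  calc ∑ a' ∈ A, (ph (τ ^ 2 + 0 ^ 2) ((a : ℝ) - a') - ph (H ^ 2 + 0 ^ 2) ((a : ℝ) - a'))
      ≤ ∑ a' ∈ A, (1 / τ) * Real.exp (-(Real.pi * ((a : ℝ) - a') ^ 2 / τ ^ 2)) := by
        refine sum_le_sum fun a' _ => ?_
        have e1 : τ ^ 2 + 0 ^ 2 = τ ^ 2 := by ring
        have e2 : ph (τ ^ 2) ((a : ℝ) - a') =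
            (1 / τ) * Real.exp (-(Real.pi * ((a : ℝ) - a') ^ 2 / τ ^ 2)) := by
          unfold ph
          rw [Real.sqrt_sq hτ.le]
        rw [e1, e2]
        have : 0 ≤ ph (H ^ 2 + 0 ^ 2) ((a : ℝ) - a') := by unfold ph; positivity
        exact sub_le_self _ this
    _ = (1 / τ) * ∑ a' ∈ A, Real.exp (-(Real.pi * ((a : ℝ) - a') ^ 2 / τ ^ 2)) := by
        rw [mul_sum]
    _ ≤ (1 / τ) * (1 + τ / B) := mul_le_mul_of_nonneg_left h1 (by positivity)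
    _ = 1 / τ + 1 / B := by field_simp

theorem inner_ne {A : Finset ℕ} {B X : ℕ} (hB : 1 ≤ B) (hX : ∀ a ∈ A, a ≤ X)
    (hsep : ∀ a ∈ A, ∀ a' ∈ A, a < a' → a + B ≤ a') {τ H : ℝ} (hτ : 0 < τ) (hH : τ ≤ H)
    {a : ℕ} (ha : a ∈ A) {v : ℝ} (hv : v ≠ 0) :
    ∑ a' ∈ A, (ph (τ ^ 2 + v ^ 2) ((a : ℝ) - a') - ph (H ^ 2 + v ^ 2) ((a : ℝ) - a')) ≤
      (1 + H / B) * (1 / |v|) := by
  have hBr : (0 : ℝ) < B := by exact_mod_cast hB
  have hH0 : 0 < H := lt_of_lt_of_le hτ hH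
  have hv0 : 0 < |v| := abs_pos.mpr hv
  set w1 : ℝ := τ ^ 2 + v ^ 2 with hw1
  set w2 : ℝ := H ^ 2 + v ^ 2 with hw2
  have h1pos : 0 < w1 := by positivity
  have h2pos : 0 < w2 := by positivity
  have h12 : w1 ≤ w2 := by
    have : τ ^ 2 ≤ H ^ 2 := pow_le_pow_left₀ hτ.le hH 2
    rw [hw1, hw2]; linarith
  have s1 : 0 < Real.sqrt w1 := Real.sqrt_pos.mpr h1pos
  have s2 : 0 < Real.sqrt w2 := Real.sqrt_pos.mpr h2pos
  have s12 : Real.sqrt w1 ≤ Real.sqrt w2 := Real.sqrt_le_sqrt h12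
  have s1v : |v| ≤ Real.sqrt w1 := by
    rw [← Real.sqrt_sq_eq_abs]
    apply Real.sqrt_le_sqrt
    rw [hw1]; nlinarith [sq_nonneg τ]
  have s2v : Real.sqrt w2 ≤ |v| + H := by
    rw [← Real.sqrt_sq (by positivity : 0 ≤ |v| + H)]
    apply Real.sqrt_le_sqrt
    rw [hw2, ← sq_abs v]
    nlinarith [mul_pos hv0 hH0]
  have h1 := exp_sum hB hX hsep (w := w2) h2pos ha
  have hd0 : 0 ≤ 1 / Real.sqrt w1 - 1 / Real.sqrt w2 := by
    rw [sub_nonneg]
    exact one_div_le_one_div_of_le s1 s12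
  calc ∑ a' ∈ A, (ph w1 ((a : ℝ) - a') - ph w2 ((a : ℝ) - a'))
      ≤ ∑ a' ∈ A, (1 / Real.sqrt w1 - 1 / Real.sqrt w2) *
          Real.exp (-(Real.pi * ((a : ℝ) - a') ^ 2 / w2)) := by
        refine sum_le_sum fun a' _ => ?_
        unfold ph
        have h3 : Real.exp (-(Real.pi * ((a : ℝ) - a') ^ 2 / w1)) ≤
            Real.exp (-(Real.pi * ((a : ℝ) - a') ^ 2 / w2)) := by
          rw [Real.exp_le_exp, neg_le_neg_iff]
          gcongr
        have h4 := mul_le_mul_of_nonneg_left h3 (by positivity : 0 ≤ 1 / Real.sqrt w1)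
        rw [sub_mul]
        linarith
    _ = (1 / Real.sqrt w1 - 1 / Real.sqrt w2) *
          ∑ a' ∈ A, Real.exp (-(Real.pi * ((a : ℝ) - a') ^ 2 / w2)) := by
        rw [mul_sum]
    _ ≤ (1 / Real.sqrt w1 - 1 / Real.sqrt w2) * (1 + Real.sqrt w2 / B) :=
        mul_le_mul_of_nonneg_left h1 hd0
    _ = 1 / Real.sqrt w1 - 1 / Real.sqrt w2 + (Real.sqrt w2 - Real.sqrt w1) / (Real.sqrt w1 * B) := by
        field_simp
    _ ≤ 1 / Real.sqrt w1 + H / (Real.sqrt w1 * B) := by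
        have h5 : 0 ≤ 1 / Real.sqrt w2 := by positivity
        have h6 : (Real.sqrt w2 - Real.sqrt w1) / (Real.sqrt w1 * B) ≤ H / (Real.sqrt w1 * B) := by
          apply div_le_div_of_nonneg_right _ (by positivity)
          linarith
        linarith
    _ = (1 + H / B) * (1 / Real.sqrt w1) := by field_simp
    _ ≤ (1 + H / B) * (1 / |v|) := by
        apply mul_le_mul_of_nonneg_left _ (by positivity)
        exact one_div_le_one_div_of_le hv0 s1v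

/-- the off-diagonal form -/
noncomputable def Jf (A : Finset ℕ) (τ H l : ℝ) : ℝ :=
  ∑ p ∈ A ×ˢ A, ∑ q ∈ A ×ˢ A,
    (gs τ (((p.1 : ℝ) - q.1) + l * ((p.2 : ℝ) - q.2)) -
      gs H (((p.1 : ℝ) - q.1) + l * ((p.2 : ℝ) - q.2)))

theorem integrable_J (A : Finset ℕ) {τ H : ℝ} (hτ : 0 < τ) (hH : 0 < H) :
    Integrable (fun l : ℝ => Real.exp (-(Real.pi * l ^ 2)) * Jf A τ H l) := by
  have h : Integrable (fun l : ℝ => ∑ p ∈ A ×ˢ A, ∑ q ∈ A ×ˢ A,
      (Real.exp (-(Real.pi * l ^ 2)) * gs τ (((p.1 : ℝ) - q.1) + l * ((p.2 : ℝ) - q.2)) -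
      Real.exp (-(Real.pi * l ^ 2)) * gs H (((p.1 : ℝ) - q.1) + l * ((p.2 : ℝ) - q.2)))) :=
    integrable_finsetSum _ fun p _ => integrable_finsetSum _ fun q _ =>
      (integrable_ph hτ _ _).sub (integrable_ph hH _ _)
  refine h.congr (ae_of_all _ fun l => ?_)
  simp only
  unfold Jf
  rw [mul_sum]
  refine sum_congr rfl fun p _ => ?_
  rw [mul_sum]
  refine sum_congr rfl fun q _ => ?_
  ring

theorem integral_J (A : Finset ℕ) {τ H : ℝ} (hτ : 0 < τ) (hH : 0 < H) :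
    ∫ l : ℝ, Real.exp (-(Real.pi * l ^ 2)) * Jf A τ H l = ∑ p ∈ A ×ˢ A, ∑ q ∈ A ×ˢ A,
      (ph (τ ^ 2 + ((p.2 : ℝ) - q.2) ^ 2) ((p.1 : ℝ) - q.1) -
        ph (H ^ 2 + ((p.2 : ℝ) - q.2) ^ 2) ((p.1 : ℝ) - q.1)) := by
  have h1 : ∀ l : ℝ, Real.exp (-(Real.pi * l ^ 2)) * Jf A τ H l = ∑ p ∈ A ×ˢ A, ∑ q ∈ A ×ˢ A,
      (Real.exp (-(Real.pi * l ^ 2)) * gs τ (((p.1 : ℝ) - q.1) + l * ((p.2 : ℝ) - q.2)) -
      Real.exp (-(Real.pi * l ^ 2)) * gs H (((p.1 : ℝ) - q.1) + l * ((p.2 : ℝ) - q.2))) := by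
    intro l
    unfold Jf
    rw [mul_sum]
    refine sum_congr rfl fun p _ => ?_
    rw [mul_sum]
    refine sum_congr rfl fun q _ => ?_
    ring
  rw [integral_congr_ae (ae_of_all _ h1)]
  have hi : ∀ p q : ℕ × ℕ, Integrable (fun l : ℝ =>
      (Real.exp (-(Real.pi * l ^ 2)) * gs τ (((p.1 : ℝ) - q.1) + l * ((p.2 : ℝ) - q.2)) -
      Real.exp (-(Real.pi * l ^ 2)) * gs H (((p.1 : ℝ) - q.1) + l * ((p.2 : ℝ) - q.2)))) :=
    fun p q => (integrable_ph hτ _ _).sub (integrable_ph hH _ _)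
  rw [integral_finsetSum _ fun p _ => integrable_finsetSum _ fun q _ => hi p q]
  refine sum_congr rfl fun p _ => ?_
  rw [integral_finsetSum _ fun q _ => hi p q]
  refine sum_congr rfl fun q _ => ?_
  rw [integral_sub (integrable_ph hτ _ _) (integrable_ph hH _ _), integral_ph hτ, integral_ph hH]

theorem energy {A : Finset ℕ} {B X : ℕ} (hB : 1 ≤ B) (hX : ∀ a ∈ A, a ≤ X)
    (hsep : ∀ a ∈ A, ∀ a' ∈ A, a < a' → a + B ≤ a') {τ H : ℝ} (hτ : 0 < τ) (hH : τ ≤ H)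
    (hBH : (B : ℝ) ≤ H) :
    ∫ l : ℝ, Real.exp (-(Real.pi * l ^ 2)) * Jf A τ H l ≤
      (A.card : ℝ) ^ 2 * (1 / τ + 5 * H * (1 + Real.log X) / B ^ 2) := by
  have hBr : (0 : ℝ) < B := by exact_mod_cast hB
  have hH0 : 0 < H := lt_of_lt_of_le hτ hH
  have hlog : 0 ≤ Real.log X := Real.log_natCast_nonneg X
  rw [integral_J A hτ hH0]
  have e1 : ∑ p ∈ A ×ˢ A, ∑ q ∈ A ×ˢ A,
      (ph (τ ^ 2 + ((p.2 : ℝ) - q.2) ^ 2) ((p.1 : ℝ) - q.1) -
        ph (H ^ 2 + ((p.2 : ℝ) - q.2) ^ 2) ((p.1 : ℝ) - q.1)) =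
      ∑ a ∈ A, ∑ c ∈ A, ∑ c' ∈ A, ∑ a' ∈ A,
        (ph (τ ^ 2 + ((c : ℝ) - c') ^ 2) ((a : ℝ) - a') -
        ph (H ^ 2 + ((c : ℝ) - c') ^ 2) ((a : ℝ) - a')) := by
    rw [sum_product]
    refine sum_congr rfl fun a _ => sum_congr rfl fun c _ => ?_
    rw [sum_product_right]
  rw [e1]
  have key : ∀ a ∈ A, ∀ c ∈ A, ∑ c' ∈ A, ∑ a' ∈ A,
        (ph (τ ^ 2 + ((c : ℝ) - c') ^ 2) ((a : ℝ) - a') -
        ph (H ^ 2 + ((c : ℝ) - c') ^ 2) ((a : ℝ) - a')) ≤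
        1 / τ + 5 * H * (1 + Real.log X) / B ^ 2 := by
    intro a ha c hc
    rw [← add_sum_erase A _ hc]
    have h0 := inner_zero hB hX hsep hτ hH ha
    have h1 : ∑ c' ∈ A.erase c, ∑ a' ∈ A,
        (ph (τ ^ 2 + ((c : ℝ) - c') ^ 2) ((a : ℝ) - a') -
        ph (H ^ 2 + ((c : ℝ) - c') ^ 2) ((a : ℝ) - a')) ≤
        ∑ c' ∈ A.erase c, (1 + H / B) * (1 / |(c : ℝ) - c'|) := by
      refine sum_le_sum fun c' hc' => ?_
      apply inner_ne hB hX hsep hτ hH ha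
      rw [mem_erase] at hc'
      rw [sub_ne_zero]
      exact_mod_cast hc'.1.symm
    have h2 : ∑ c' ∈ A.erase c, (1 / |(c : ℝ) - c'|) ≤ 2 * ∑ i ∈ Icc 1 X, (1 / |((i : ℝ) * B)|) := by
      have := sep_sum (f := fun x : ℝ => 1 / |x|) hB hX hsep
        (by
          intro x y hx hxy
          rw [abs_of_pos hx, abs_of_pos (by linarith)]
          exact one_div_le_one_div_of_le hx hxy)
        (fun x => by positivity) hc
      simpa only [abs_abs] using this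
    have h3 : ∑ i ∈ Icc 1 X, (1 / |((i : ℝ) * B)|) ≤ (1 + Real.log X) / B := by
      have e2 : ∑ i ∈ Icc 1 X, (1 / |((i : ℝ) * B)|) = (∑ i ∈ Icc 1 X, ((i : ℝ))⁻¹) / B := by
        rw [sum_div]
        refine sum_congr rfl fun i _ => ?_
        rw [abs_of_nonneg (by positivity), one_div, mul_inv]
        rfl
      rw [e2]
      apply div_le_div_of_nonneg_right _ hBr.le
      have := harmonic_le_one_add_log X
      rw [harmonic_eq_sum_Icc] at this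
      push_cast at this
      exact this
    have h4 : ph (τ ^ 2 + 0 ^ 2) = ph (τ ^ 2 + ((c : ℝ) - c) ^ 2) := by rw [sub_self]
    have h5 : ph (H ^ 2 + 0 ^ 2) = ph (H ^ 2 + ((c : ℝ) - c) ^ 2) := by rw [sub_self]
    rw [h4, h5] at h0
    rw [← mul_sum] at h1
    have h6 : (1 + H / B) * ∑ c' ∈ A.erase c, (1 / |(c : ℝ) - c'|) ≤
        (1 + H / B) * (2 * ((1 + Real.log X) / B)) := by
      apply mul_le_mul_of_nonneg_left _ (by positivity)
      linarith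
    have h7 : 1 ≤ H / B := by
      rw [le_div_iff₀ hBr]; linarith
    have h8 : (1 + H / B) * (2 * ((1 + Real.log X) / B)) ≤
        (2 * (H / B)) * (2 * ((1 + Real.log X) / B)) := by
      apply mul_le_mul_of_nonneg_right _ (by positivity)
      linarith
    have h9 : (1 : ℝ) / B ≤ H * (1 + Real.log X) / B ^ 2 := by
      rw [div_le_div_iff₀ hBr (by positivity)]
      have : (B : ℝ) * 1 ≤ H * (1 + Real.log X) := by
        apply mul_le_mul hBH (by linarith) (by norm_num) hH0.le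
      nlinarith
    have h10 : (2 * (H / B)) * (2 * ((1 + Real.log X) / B)) = 4 * (H * (1 + Real.log X) / B ^ 2) := by
      field_simp
      ring
    have h11 : 5 * H * (1 + Real.log X) / B ^ 2 = 5 * (H * (1 + Real.log X) / B ^ 2) := by
      ring
    rw [h11]
    linarith
  calc _ ≤ ∑ a ∈ A, ∑ c ∈ A, (1 / τ + 5 * H * (1 + Real.log X) / B ^ 2) :=
        sum_le_sum fun a ha => sum_le_sum fun c hc => key a ha c hc
    _ = (A.card : ℝ) ^ 2 * (1 / τ + 5 * H * (1 + Real.log X) / B ^ 2) := by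
        rw [sum_const, sum_const, nsmul_eq_mul, nsmul_eq_mul]
        ring

/-- the main comparison: the `τ`-count is close to the `H`-count. -/
theorem compare (A : Finset ℕ) {τ H : ℝ} (hτ : 0 < τ) (hH : τ ≤ H) (l N : ℝ) :
    ∑ p ∈ A ×ˢ A, ∑ q ∈ A ×ˢ A, gs H ((p.1 : ℝ) + q.1 + l * ((p.2 : ℝ) + q.2) - N) - Jf A τ H l ≤
      ∑ p ∈ A ×ˢ A, ∑ q ∈ A ×ˢ A, gs τ ((p.1 : ℝ) + q.1 + l * ((p.2 : ℝ) + q.2) - N) := by
  have h := gs_pd (A ×ˢ A) (fun p : ℕ × ℕ => (p.1 : ℝ) + l * p.2 - N / 2) hτ hH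
  have e1 : ∑ i ∈ A ×ˢ A, ∑ j ∈ A ×ˢ A,
      (gs τ (((i.1 : ℝ) + l * i.2 - N / 2) + ((j.1 : ℝ) + l * j.2 - N / 2)) -
        gs H (((i.1 : ℝ) + l * i.2 - N / 2) + ((j.1 : ℝ) + l * j.2 - N / 2))) =
      ∑ p ∈ A ×ˢ A, ∑ q ∈ A ×ˢ A, gs τ ((p.1 : ℝ) + q.1 + l * ((p.2 : ℝ) + q.2) - N) -
      ∑ p ∈ A ×ˢ A, ∑ q ∈ A ×ˢ A, gs H ((p.1 : ℝ) + q.1 + l * ((p.2 : ℝ) + q.2) - N) := by
    rw [← sum_sub_distrib]
    refine sum_congr rfl fun p _ => ?_
    rw [← sum_sub_distrib]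
    refine sum_congr rfl fun q _ => ?_
    have : ((p.1 : ℝ) + l * p.2 - N / 2) + ((q.1 : ℝ) + l * q.2 - N / 2) =
        (p.1 : ℝ) + q.1 + l * ((p.2 : ℝ) + q.2) - N := by ring
    rw [this]
  have e2 : ∑ i ∈ A ×ˢ A, ∑ j ∈ A ×ˢ A,
      (gs τ (((i.1 : ℝ) + l * i.2 - N / 2) - ((j.1 : ℝ) + l * j.2 - N / 2)) -
        gs H (((i.1 : ℝ) + l * i.2 - N / 2) - ((j.1 : ℝ) + l * j.2 - N / 2))) = Jf A τ H l := by
    unfold Jf
    refine sum_congr rfl fun p _ => sum_congr rfl fun q _ => ?_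
    have : ((p.1 : ℝ) + l * p.2 - N / 2) - ((q.1 : ℝ) + l * q.2 - N / 2) =
        (p.1 : ℝ) - q.1 + l * ((p.2 : ℝ) - q.2) := by ring
    rw [this]
  rw [e1, e2] at h
  have := (abs_le.mp h).1
  linarith

theorem J_nonneg (A : Finset ℕ) {τ H : ℝ} (hτ : 0 < τ) (hH : τ ≤ H) (l : ℝ) : 0 ≤ Jf A τ H l := by
  have h := gs_pd (A ×ˢ A) (fun p : ℕ × ℕ => (p.1 : ℝ) + l * p.2) hτ hH
  have e2 : ∑ i ∈ A ×ˢ A, ∑ j ∈ A ×ˢ A,
      (gs τ (((i.1 : ℝ) + l * i.2) - ((j.1 : ℝ) + l * j.2)) -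
        gs H (((i.1 : ℝ) + l * i.2) - ((j.1 : ℝ) + l * j.2))) = Jf A τ H l := by
    unfold Jf
    refine sum_congr rfl fun p _ => sum_congr rfl fun q _ => ?_
    have : ((p.1 : ℝ) + l * p.2) - ((q.1 : ℝ) + l * q.2) =
        (p.1 : ℝ) - q.1 + l * ((p.2 : ℝ) - q.2) := by ring
    rw [this]
  rw [e2] at h
  exact le_trans (abs_nonneg _) h

end Pool.Agent.X114.WM
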