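import Mathlib
import Pool.Agent.X114.WR.Dim

/-! Well separated sets of sums of `k`-th powers (diminishing ranges). -/

set_option autoImplicit false

namespace Pool.Agent.X114.WM

open Finset Filter Topology
open Pool.Agent.X114.WR

/-- `S` is a set of sums of `s` `k`-th powers in `[0, N]`, any two elements differ by at least `B`,
and `c N ≤ |S| B`. -/
structure SepSet (k s N B : ℕ) (c : ℝ) (S : Finset ℕ) : Prop where
  le : ∀ a ∈ S, a ≤ N
  rep : ∀ a ∈ S, Rep k s a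
  one : 1 ≤ B
  sep : ∀ a ∈ S, ∀ a' ∈ S, a < a' → a + B ≤ a'
  dens : c * N ≤ S.card * B

theorem pow_gap {k X x : ℕ} (hk : 2 ≤ k) (hx : X < x) : x ^ k + 2 * X ^ (k - 1) ≤ (x + 1) ^ k := by
  have h0 : 2 * X ^ (k - 1) ≤ (x + 1) ^ (k - 1) + x ^ (k - 1) := by
    have h1 : X ^ (k - 1) ≤ (x + 1) ^ (k - 1) := Nat.pow_le_pow_left (by omega) _
    have h2 : X ^ (k - 1) ≤ x ^ (k - 1) := Nat.pow_le_pow_left (by omega) _
    omega
  have h3 : x * x ^ (k - 1) = x ^ k := by
    rw [← pow_succ', show k - 1 + 1 = k by omega]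
  have h4 : (x + 1) ^ k = (x + 1) * (x + 1) ^ (k - 1) := by
    rw [← pow_succ', show k - 1 + 1 = k by omega]
  have h5 : x * (x + 1) ^ (k - 1) ≥ x * x ^ (k - 1) + x ^ (k - 1) := by
    have h6 : (x + 1) ^ (k - 1) = (x + 1) * (x + 1) ^ (k - 2) := by
      rw [← pow_succ', show k - 2 + 1 = k - 1 by omega]
    have h7 : x ^ (k - 1) = x * x ^ (k - 2) := by
      rw [← pow_succ', show k - 2 + 1 = k - 1 by omega]
    have h8 : x ^ (k - 2) ≤ (x + 1) ^ (k - 2) := Nat.pow_le_pow_left (by omega) _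
    rw [h6, h7]
    have h9 := Nat.mul_le_mul_left (x * (x + 1)) h8
    have e1 : x * ((x + 1) * (x + 1) ^ (k - 2)) = x * (x + 1) * (x + 1) ^ (k - 2) := by ring
    have e2 : x * (x * x ^ (k - 2)) + x * x ^ (k - 2) = x * (x + 1) * x ^ (k - 2) := by ring
    rw [e1, e2]
    exact h9
  rw [h4, add_mul, one_mul]
  omega

theorem sep_step {k X B : ℕ} (hk : 2 ≤ k) (hB : B ≤ X ^ (k - 1)) {S : Finset ℕ}
    (hle : ∀ a ∈ S, a ≤ X ^ (k - 1)) (hsep : ∀ a ∈ S, ∀ a' ∈ S, a < a' → a + B ≤ a')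
    {x x' a a' : ℕ} (hx : X < x) (hx' : X < x') (ha : a ∈ S) (ha' : a' ∈ S)
    (hlt : x ^ k + a < x' ^ k + a') : x ^ k + a + B ≤ x' ^ k + a' := by
  rcases lt_trichotomy x x' with h | h | h
  · have h1 := pow_gap hk hx
    have h2 : (x + 1) ^ k ≤ x' ^ k := Nat.pow_le_pow_left h _
    have h3 := hle a ha
    omega
  · subst h
    have := hsep a ha a' ha' (by omega)
    omega
  · have h1 := pow_gap hk hx'
    have h2 : (x' + 1) ^ k ≤ x ^ k := Nat.pow_le_pow_left h _
    have h3 := hle a' ha'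
    omega

theorem inj_step {k X Y : ℕ} (hk : 2 ≤ k) {S : Finset ℕ}
    (hle : ∀ a ∈ S, a ≤ X ^ (k - 1)) :
    Set.InjOn (fun p : ℕ × ℕ => p.1 ^ k + p.2) ((Ioc X Y) ×ˢ S : Finset (ℕ × ℕ)) := by
  have key : ∀ x x' y y' : ℕ, X < x → y ≤ X ^ (k - 1) → x < x' → x ^ k + y ≠ x' ^ k + y' := by
    intro x x' y y' hx hy hxx heq
    have h1 := pow_gap hk hx
    have h2 : (x + 1) ^ k ≤ x' ^ k := Nat.pow_le_pow_left hxx _
    have h3 : 0 < X ^ (k - 1) ∨ X = 0 := by
      rcases Nat.eq_zero_or_pos X with h | h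
      · exact Or.inr h
      · exact Or.inl (by positivity)
    have h4 : x ^ k < (x + 1) ^ k := Nat.pow_lt_pow_left (by omega) (by omega)
    rcases h3 with h3 | h3
    · omega
    · have : X ^ (k - 1) = 0 := by rw [h3]; exact zero_pow (by omega)
      omega
  rintro ⟨x, y⟩ hp ⟨x', y'⟩ hp' heq
  rw [mem_coe, mem_product, mem_Ioc] at hp hp'
  have hy := hle y hp.2
  have hy' := hle y' hp'.2
  simp only at heq
  rcases lt_trichotomy x x' with h | h | h
  · exact absurd heq (key x x' y y' hp.1.1 hy h)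
  · subst h
    have : y = y' := by omega
    rw [this]
  · exact absurd heq.symm (key x' x y' y hp'.1.1 hy' h)

theorem sep_ranges (k : ℕ) (hk : 2 ≤ k) (s : ℕ) : ∃ c : ℝ, 0 < c ∧ ∃ N0 : ℕ, ∀ N : ℕ, N0 ≤ N →
    ∃ (S : Finset ℕ) (B : ℕ), SepSet k s N B c S ∧ B ≤ N ∧
      c * (N : ℝ) ^ (1 - (1 - 1 / (k : ℝ)) ^ s) ≤ S.card := by
  have hk0 : (0 : ℝ) < k := by exact_mod_cast (by omega : 0 < k)
  have hk2 : (2 : ℝ) ≤ k := by exact_mod_cast hk
  induction s with
  | zero =>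
    refine ⟨1, one_pos, 1, fun N hN => ⟨{0}, N, ⟨?_, ?_, hN, ?_, ?_⟩, le_rfl, ?_⟩⟩
    · intro a ha
      rw [mem_singleton.mp ha]
      exact Nat.zero_le _
    · intro a ha
      rw [mem_singleton.mp ha]
      exact Rep.zero k
    · intro a ha a' ha' h
      rw [mem_singleton.mp ha, mem_singleton.mp ha'] at h
      omega
    · simp
    · simp
  | succ s ih =>
    obtain ⟨c, hc, N0, H⟩ := ih
    obtain ⟨N1, H1⟩ := exists_root k (by omega)
    set μ : ℝ := (1 - 1 / (k : ℝ)) ^ s with hμ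
    have hb0 : (0 : ℝ) ≤ 1 - 1 / (k : ℝ) := by
      rw [sub_nonneg, div_le_one hk0]; linarith
    have hb1 : 1 - 1 / (k : ℝ) ≤ 1 := by
      have : (0 : ℝ) ≤ 1 / k := by positivity
      linarith
    have hμ0 : 0 ≤ μ := pow_nonneg hb0 _
    have hμ1 : μ ≤ 1 := pow_le_one₀ hb0 hb1
    set e : ℝ := 1 + ((k : ℝ) - 1) * (1 - μ) with he
    have he0 : 0 ≤ e := by
      rw [he]
      have : 0 ≤ ((k : ℝ) - 1) * (1 - μ) := mul_nonneg (by linarith) (by linarith)
      linarith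
    have hek : e ≤ k := by
      rw [he]
      nlinarith
    have hee : e / k = 1 - (1 - 1 / (k : ℝ)) ^ (s + 1) := by
      rw [pow_succ, ← hμ, he]
      field_simp
      ring
    refine ⟨c * (1 / 8) ^ (k : ℝ), by positivity, max N1 ((8 * (N0 + 1)) ^ k), fun N hN => ?_⟩
    obtain ⟨X, hX1, hX2⟩ := H1 N (le_trans (le_max_left _ _) hN)
    have hXbig : N0 + 1 ≤ X := by
      have h1 : ((8 * ((N0 : ℝ) + 1)) ^ k) ^ (1 / (k : ℝ)) ≤ (N : ℝ) ^ (1 / (k : ℝ)) := by
        apply Real.rpow_le_rpow (by positivity) _ (by positivity)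
        exact_mod_cast le_trans (le_max_right _ _) hN
      rw [← Real.rpow_natCast (8 * ((N0 : ℝ) + 1)) k, ← Real.rpow_mul (by positivity),
        mul_one_div_cancel hk0.ne', Real.rpow_one] at h1
      have : ((N0 : ℝ) + 1) ≤ X := by linarith
      exact_mod_cast this
    have hX0 : 0 < X := by omega
    obtain ⟨S, B, hS, hBN, hSc⟩ := H (X ^ (k - 1)) (by
      calc N0 ≤ X := by omega
        _ = X ^ 1 := (pow_one _).symm
        _ ≤ X ^ (k - 1) := Nat.pow_le_pow_right hX0 (by omega))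
    have hinj := inj_step (Y := 2 * X) hk hS.le
    have hXr : (0 : ℝ) < X := by exact_mod_cast hX0
    have hcard : ((((Ioc X (2 * X)) ×ˢ S).image (fun p : ℕ × ℕ => p.1 ^ k + p.2)).card : ℝ) =
        X * S.card := by
      rw [card_image_of_injOn hinj, card_product, Nat.card_Ioc]
      have h1 : 2 * X - X = X := by omega
      rw [h1]
      push_cast
      ring
    have hsize : X ^ (k - 1) ≤ N := by
      calc X ^ (k - 1) ≤ (2 * X) ^ (k - 1) := Nat.pow_le_pow_left (by omega) _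
        _ ≤ (2 * X) ^ k := Nat.pow_le_pow_right (by omega) (by omega)
        _ ≤ 2 * (2 * X) ^ k := by omega
        _ ≤ N := hX1
    refine ⟨((Ioc X (2 * X)) ×ˢ S).image (fun p => p.1 ^ k + p.2), B,
      ⟨?_, ?_, hS.one, ?_, ?_⟩, le_trans hBN hsize, ?_⟩
    · intro a ha
      obtain ⟨⟨x, y⟩, hp, rfl⟩ := mem_image.mp ha
      rw [mem_product, mem_Ioc] at hp
      have hy := hS.le y hp.2
      have h1 : x ^ k ≤ (2 * X) ^ k := Nat.pow_le_pow_left hp.1.2 _
      have h2 : X ^ (k - 1) ≤ (2 * X) ^ k := by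
        calc X ^ (k - 1) ≤ (2 * X) ^ (k - 1) := Nat.pow_le_pow_left (by omega) _
          _ ≤ (2 * X) ^ k := Nat.pow_le_pow_right (by omega) (by omega)
      simp only
      omega
    · intro a ha
      obtain ⟨⟨x, y⟩, hp, rfl⟩ := mem_image.mp ha
      rw [mem_product, mem_Ioc] at hp
      have := (hS.rep y hp.2).add (Rep.one (k := k) (x := x) (by omega : 0 < x))
      rw [add_comm y] at this
      exact this
    · intro a ha a' ha' hlt
      obtain ⟨⟨x, y⟩, hp, rfl⟩ := mem_image.mp ha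
      obtain ⟨⟨x', y'⟩, hp', rfl⟩ := mem_image.mp ha'
      rw [mem_product, mem_Ioc] at hp hp'
      exact sep_step hk hBN hS.le hS.sep hp.1.1 hp'.1.1 hp.2 hp'.2 hlt
    · rw [hcard]
      have h1 := hS.dens
      have h2 : (N : ℝ) * (1 / 8) ^ (k : ℝ) ≤ (X : ℝ) ^ k := by
        have h3 : ((N : ℝ) ^ (1 / (k : ℝ)) / 8) ^ k ≤ (X : ℝ) ^ k :=
          pow_le_pow_left₀ (by positivity) hX2 k
        rw [div_pow, ← Real.rpow_natCast ((N : ℝ) ^ (1 / (k : ℝ))) k,
          ← Real.rpow_mul (by positivity), one_div_mul_cancel hk0.ne', Real.rpow_one] at h3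
        rw [Real.rpow_natCast, one_div, inv_pow, ← div_eq_mul_inv]
        exact h3
      have h4 : (X : ℝ) ^ k = X * ((X ^ (k - 1) : ℕ) : ℝ) := by
        push_cast
        rw [← pow_succ', show k - 1 + 1 = k by omega]
      calc c * (1 / 8) ^ (k : ℝ) * N = c * (N * (1 / 8) ^ (k : ℝ)) := by ring
        _ ≤ c * (X : ℝ) ^ k := mul_le_mul_of_nonneg_left h2 hc.le
        _ = X * (c * ((X ^ (k - 1) : ℕ) : ℝ)) := by rw [h4]; ring
        _ ≤ X * (S.card * B) := mul_le_mul_of_nonneg_left h1 hXr.le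
        _ = X * S.card * B := by ring
    · rw [hcard]
      have h2 : ((X ^ (k - 1) : ℕ) : ℝ) ^ (1 - μ) = (X : ℝ) ^ (((k : ℝ) - 1) * (1 - μ)) := by
        push_cast
        rw [← Real.rpow_natCast (X : ℝ) (k - 1), ← Real.rpow_mul hXr.le]
        congr 2
        rw [Nat.cast_sub (by omega)]; simp
      rw [h2] at hSc
      calc c * (1 / 8) ^ (k : ℝ) * (N : ℝ) ^ (1 - (1 - 1 / (k : ℝ)) ^ (s + 1))
          ≤ c * (1 / 8) ^ e * (N : ℝ) ^ (1 - (1 - 1 / (k : ℝ)) ^ (s + 1)) := by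
            apply mul_le_mul_of_nonneg_right _ (by positivity)
            apply mul_le_mul_of_nonneg_left _ hc.le
            exact Real.rpow_le_rpow_of_exponent_ge (by norm_num) (by norm_num) hek
        _ = c * ((N : ℝ) ^ (1 / (k : ℝ)) / 8) ^ e := by
            rw [← hee, div_eq_mul_one_div ((N : ℝ) ^ (1 / (k : ℝ))) 8,
              Real.mul_rpow (by positivity) (by norm_num), ← Real.rpow_mul (by positivity)]
            rw [show 1 / (k : ℝ) * e = e / k by ring]
            ring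
        _ ≤ c * (X : ℝ) ^ e := by
            apply mul_le_mul_of_nonneg_left _ hc.le
            exact Real.rpow_le_rpow (by positivity) hX2 he0
        _ = X * (c * (X : ℝ) ^ (((k : ℝ) - 1) * (1 - μ))) := by
            rw [he, Real.rpow_add hXr, Real.rpow_one]; ring
        _ ≤ X * (S.card : ℝ) := mul_le_mul_of_nonneg_left hSc hXr.le

end Pool.Agent.X114.WM
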