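import Mathlib
import Pool.Agent.X114.WM.Energy
import Pool.Agent.X114.WM.Sep

/-! The set with a free top variable and the lower bound for the wide count. -/

set_option autoImplicit false

namespace Pool.Agent.X114.WM

open Finset MeasureTheory Filter Topology
open Pool.Agent.X114.WR

/-- `x ^ k + a` with `P < x ≤ Y`, `a ∈ S`. -/
def Top (k P Y : ℕ) (S : Finset ℕ) : Finset ℕ :=
  ((Ioc P Y) ×ˢ S).image (fun p : ℕ × ℕ => p.1 ^ k + p.2)

theorem mem_Top {k P Y : ℕ} {S : Finset ℕ} {n : ℕ} :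
    n ∈ Top k P Y S ↔ ∃ x a, P < x ∧ x ≤ Y ∧ a ∈ S ∧ x ^ k + a = n := by
  unfold Top
  rw [mem_image]
  constructor
  · rintro ⟨⟨x, a⟩, h, rfl⟩
    rw [mem_product, mem_Ioc] at h
    exact ⟨x, a, h.1.1, h.1.2, h.2, rfl⟩
  · rintro ⟨x, a, h1, h2, h3, h4⟩
    exact ⟨(x, a), by rw [mem_product, mem_Ioc]; exact ⟨⟨h1, h2⟩, h3⟩, h4⟩

theorem Top_mono {k P P' Y Y' : ℕ} {S : Finset ℕ} (h1 : P ≤ P') (h2 : Y' ≤ Y) :
    Top k P' Y' S ⊆ Top k P Y S := by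
  intro n hn
  obtain ⟨x, a, ha, hb, hc, hd⟩ := mem_Top.mp hn
  exact mem_Top.mpr ⟨x, a, by omega, by omega, hc, hd⟩

theorem card_Top {k P P' Y : ℕ} (hk : 2 ≤ k) (hP : P ≤ P') {S : Finset ℕ}
    (hle : ∀ a ∈ S, a ≤ P ^ (k - 1)) : (Top k P' Y S).card = (Y - P') * S.card := by
  unfold Top
  rw [card_image_of_injOn ((inj_step (Y := Y) hk hle).mono _), card_product, Nat.card_Ioc]
  intro p hp
  rw [mem_coe, mem_product, mem_Ioc] at hp ⊢
  exact ⟨⟨by omega, hp.1.2⟩, hp.2⟩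

theorem exists_kroot {k : ℕ} (hk : 2 ≤ k) {y : ℝ} (hy : 0 ≤ y) :
    ∃ x : ℕ, (x : ℝ) ^ k ≤ y ∧ y < ((x : ℝ) + 1) ^ k := by
  have hk0 : (0 : ℝ) < k := by exact_mod_cast (by omega : 0 < k)
  refine ⟨⌊y ^ (1 / (k : ℝ))⌋₊, ?_, ?_⟩
  · have h1 := Nat.floor_le (Real.rpow_nonneg hy (1 / (k : ℝ)))
    have h2 := pow_le_pow_left₀ (by positivity) h1 k
    rwa [← Real.rpow_natCast (y ^ (1 / (k : ℝ))) k, ← Real.rpow_mul hy,
      one_div_mul_cancel hk0.ne', Real.rpow_one] at h2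
  · have h1 := Nat.lt_floor_add_one (y ^ (1 / (k : ℝ)))
    have h2 := pow_lt_pow_left₀ h1 (Real.rpow_nonneg hy _) (by omega : k ≠ 0)
    rwa [← Real.rpow_natCast (y ^ (1 / (k : ℝ))) k, ← Real.rpow_mul hy,
      one_div_mul_cancel hk0.ne', Real.rpow_one] at h2

/-- many elements of the set near a given point -/
theorem near {k P R J : ℕ} (hk : 2 ≤ k) {S : Finset ℕ} (hle : ∀ a ∈ S, a ≤ P ^ (k - 1))
    {y H : ℝ} (hy1 : ((3 : ℝ) * P) ^ k ≤ y) (hy2 : y < ((R : ℝ) * P) ^ k) (hJ : J ≤ P)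
    (hH1 : (P : ℝ) ^ (k - 1) ≤ H) (hH2 : (J : ℝ) * k * ((R : ℝ) * P) ^ (k - 1) ≤ H) :
    ∃ T ⊆ Top k P (R * P) S, J * S.card ≤ T.card ∧ ∀ a ∈ T, |(a : ℝ) - y| ≤ H := by
  have hy0 : 0 ≤ y := le_trans (by positivity) hy1
  obtain ⟨x0, hx1, hx2⟩ := exists_kroot hk hy0
  have h3P : 3 * P ≤ x0 := by
    have h1 : ((3 : ℝ) * P) ^ k < ((x0 : ℝ) + 1) ^ k := lt_of_le_of_lt hy1 hx2
    have h2 := lt_of_pow_lt_pow_left₀ k (by positivity) h1
    have h3 : 3 * P < x0 + 1 := by exact_mod_cast h2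
    omega
  have hRP : x0 < R * P := by
    have h1 : (x0 : ℝ) ^ k < ((R : ℝ) * P) ^ k := lt_of_le_of_lt hx1 hy2
    have h2 := lt_of_pow_lt_pow_left₀ k (by positivity) h1
    exact_mod_cast h2
  refine ⟨Top k (x0 - J) x0 S, Top_mono (by omega) hRP.le, ?_, ?_⟩
  · rw [card_Top hk (by omega : P ≤ x0 - J) hle]
    have : x0 - (x0 - J) = J := by omega
    rw [this]
  · intro n hn
    obtain ⟨x, a, ha, hb, hc, rfl⟩ := mem_Top.mp hn
    have haP : ((a : ℕ) : ℝ) ≤ (P : ℝ) ^ (k - 1) := by exact_mod_cast hle a hc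
    have ha0 : (0 : ℝ) ≤ ((a : ℕ) : ℝ) := Nat.cast_nonneg a
    have hxk : (x : ℝ) ^ k ≤ (x0 : ℝ) ^ k := by
      apply pow_le_pow_left₀ (by positivity)
      exact_mod_cast hb
    rw [abs_le]
    constructor
    · have h1 := abs_pow_sub_pow_le ((x0 : ℝ) + 1) (x : ℝ) k
      have hxx : (x : ℝ) ≤ (x0 : ℝ) + 1 := by
        have : (x : ℝ) ≤ x0 := by exact_mod_cast hb
        linarith
      rw [abs_of_nonneg (by positivity : (0 : ℝ) ≤ (x0 : ℝ) + 1),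
        abs_of_nonneg (by positivity : (0 : ℝ) ≤ (x : ℝ)), max_eq_left hxx,
        abs_of_nonneg (by linarith : (0 : ℝ) ≤ (x0 : ℝ) + 1 - x)] at h1
      have h2 : (x0 : ℝ) + 1 - x ≤ J := by
        have : x0 + 1 ≤ J + x := by omega
        have : (x0 : ℝ) + 1 ≤ J + x := by exact_mod_cast this
        linarith
      have h3 : (x0 : ℝ) + 1 ≤ (R : ℝ) * P := by exact_mod_cast hRP
      have h4 : ((x0 : ℝ) + 1 - x) * k * ((x0 : ℝ) + 1) ^ (k - 1) ≤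
          (J : ℝ) * k * ((R : ℝ) * P) ^ (k - 1) := by
        apply mul_le_mul _ (pow_le_pow_left₀ (by positivity) h3 _) (by positivity) (by positivity)
        exact mul_le_mul_of_nonneg_right h2 (by positivity)
      have h5 := le_trans (le_abs_self _) h1
      push_cast
      linarith
    · push_cast
      linarith

theorem gs_lower {H x : ℝ} (hH : 0 < H) (hx : |x| ≤ H) : (1 / H) * Real.exp (-Real.pi) ≤ gs H x := by
  unfold gs
  apply mul_le_mul_of_nonneg_left _ (by positivity)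
  rw [Real.exp_le_exp, neg_le_neg_iff, div_le_iff₀ (by positivity)]
  have : x ^ 2 ≤ H ^ 2 := by
    rw [← sq_abs x]
    exact pow_le_pow_left₀ (abs_nonneg _) hx 2
  exact mul_le_mul_of_nonneg_left this Real.pi_pos.le

/-- the wide count is large -/
theorem wide {k P R J M C : ℕ} (hk : 2 ≤ k) {S : Finset ℕ} (hle : ∀ a ∈ S, a ≤ P ^ (k - 1))
    (hP : 1 ≤ P) (hC : C = (2 ^ k + 1) * (1 + 2 * M) + 3 ^ k) (hR : R = 4 * C + 1)
    (hJ : J ≤ P) {H l N : ℝ} (hH1 : (P : ℝ) ^ (k - 1) ≤ H)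
    (hH2 : (J : ℝ) * k * ((R : ℝ) * P) ^ (k - 1) ≤ H) (hl0 : 0 ≤ l) (hl : l ≤ M)
    (hN1 : (C : ℝ) * P ^ k ≤ N) (hN2 : N ≤ 4 ^ k * (C : ℝ) * P ^ k) :
    ((P * S.card : ℕ) : ℝ) ^ 3 * ((J * S.card : ℕ) : ℝ) * ((1 / H) * Real.exp (-Real.pi)) ≤
      ∑ p ∈ Top k P (R * P) S ×ˢ Top k P (R * P) S, ∑ q ∈ Top k P (R * P) S ×ˢ Top k P (R * P) S,
        gs H ((p.1 : ℝ) + q.1 + l * ((p.2 : ℝ) + q.2) - N) := by
  have hPr : (1 : ℝ) ≤ P := by exact_mod_cast hP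
  have hH0 : 0 < H := lt_of_lt_of_le (by positivity) hH1
  set A := Top k P (R * P) S with hA
  set A1 := Top k P (2 * P) S with hA1
  have hC1 : 1 ≤ C := by
    rw [hC]
    have : 1 ≤ 3 ^ k := Nat.one_le_pow _ _ (by norm_num)
    omega
  have hR2 : 2 ≤ R := by omega
  have hsub : A1 ⊆ A := Top_mono le_rfl (Nat.mul_le_mul_right _ hR2)
  have hcard1 : A1.card = P * S.card := by
    rw [hA1, card_Top hk le_rfl hle]
    congr 1
    omega
  have hA1le : ∀ n ∈ A1, (n : ℝ) ≤ (2 ^ k + 1) * P ^ k := by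
    intro n hn
    obtain ⟨x, a, ha, hb, hc, rfl⟩ := mem_Top.mp hn
    have h1 : ((a : ℕ) : ℝ) ≤ (P : ℝ) ^ (k - 1) := by exact_mod_cast hle a hc
    have h2 : (P : ℝ) ^ (k - 1) ≤ (P : ℝ) ^ k := pow_le_pow_right₀ hPr (by omega)
    have h3 : (x : ℝ) ^ k ≤ (2 * (P : ℝ)) ^ k := by
      apply pow_le_pow_left₀ (by positivity)
      exact_mod_cast hb
    rw [mul_pow] at h3
    push_cast
    linarith
  have hCr : (C : ℝ) = (2 ^ k + 1) * (1 + 2 * (M : ℝ)) + 3 ^ k := by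
    rw [hC]; push_cast; ring
  have hRC : (4 : ℝ) ^ k * C * (P : ℝ) ^ k < ((R : ℝ) * P) ^ k := by
    rw [mul_pow]
    apply mul_lt_mul_of_pos_right _ (by positivity)
    have h1 : (C : ℝ) ≤ (C : ℝ) ^ k := le_self_pow₀ (by exact_mod_cast hC1) (by omega)
    have h2 : (4 * (C : ℝ)) ^ k < (R : ℝ) ^ k := by
      apply pow_lt_pow_left₀ _ (by positivity) (by omega)
      rw [hR]; push_cast; linarith
    rw [mul_pow] at h2
    have h3 : (4 : ℝ) ^ k * C ≤ 4 ^ k * (C : ℝ) ^ k := mul_le_mul_of_nonneg_left h1 (by positivity)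
    linarith
  have key : ∀ c ∈ A1, ∀ q ∈ A1 ×ˢ A1, ((J * S.card : ℕ) : ℝ) * ((1 / H) * Real.exp (-Real.pi)) ≤
      ∑ a ∈ A, gs H ((a : ℝ) + q.1 + l * ((c : ℝ) + q.2) - N) := by
    intro c hc q hq
    rw [mem_product] at hq
    have b1 := hA1le c hc
    have b2 := hA1le q.1 hq.1
    have b3 := hA1le q.2 hq.2
    have hM0 : (0 : ℝ) ≤ M := Nat.cast_nonneg M
    have hD0 : (0 : ℝ) ≤ (2 ^ k + 1) * (P : ℝ) ^ k := by positivity
    have b4 : l * ((c : ℝ) + q.2) ≤ M * (2 * ((2 ^ k + 1) * (P : ℝ) ^ k)) := by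
      apply mul_le_mul hl (by linarith) (by positivity) hM0
    have b5 : 0 ≤ l * ((c : ℝ) + q.2) := by positivity
    have b6 : (0 : ℝ) ≤ q.1 := Nat.cast_nonneg _
    obtain ⟨T, hT1, hT2, hT3⟩ := near (y := N - q.1 - l * ((c : ℝ) + q.2)) hk hle
      (by
        rw [mul_pow]
        have : (C : ℝ) * P ^ k = (2 ^ k + 1) * (P : ℝ) ^ k + M * (2 * ((2 ^ k + 1) * (P : ℝ) ^ k)) +
          3 ^ k * P ^ k := by rw [hCr]; ring
        linarith)
      (by linarith) hJ hH1 hH2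
    calc ((J * S.card : ℕ) : ℝ) * ((1 / H) * Real.exp (-Real.pi))
        ≤ (T.card : ℝ) * ((1 / H) * Real.exp (-Real.pi)) := by
          apply mul_le_mul_of_nonneg_right _ (by positivity)
          exact_mod_cast hT2
      _ = ∑ a ∈ T, ((1 / H) * Real.exp (-Real.pi)) := by
          rw [sum_const, nsmul_eq_mul]
      _ ≤ ∑ a ∈ T, gs H ((a : ℝ) + q.1 + l * ((c : ℝ) + q.2) - N) := by
          refine sum_le_sum fun a ha => gs_lower hH0 ?_
          have := hT3 a ha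
          have e : (a : ℝ) + q.1 + l * ((c : ℝ) + q.2) - N =
            (a : ℝ) - (N - q.1 - l * ((c : ℝ) + q.2)) := by ring
          rw [e]
          exact this
      _ ≤ ∑ a ∈ A, gs H ((a : ℝ) + q.1 + l * ((c : ℝ) + q.2) - N) :=
          sum_le_sum_of_subset_of_nonneg hT1 fun a _ _ => (gs_pos hH0 _).le
  calc ((P * S.card : ℕ) : ℝ) ^ 3 * ((J * S.card : ℕ) : ℝ) * ((1 / H) * Real.exp (-Real.pi))
      = ∑ c ∈ A1, ∑ q ∈ A1 ×ˢ A1, ((J * S.card : ℕ) : ℝ) * ((1 / H) * Real.exp (-Real.pi)) := by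
        rw [sum_const, sum_const, card_product, hcard1, nsmul_eq_mul, nsmul_eq_mul]
        push_cast
        ring
    _ ≤ ∑ c ∈ A1, ∑ q ∈ A1 ×ˢ A1, ∑ a ∈ A, gs H ((a : ℝ) + q.1 + l * ((c : ℝ) + q.2) - N) :=
        sum_le_sum fun c hc => sum_le_sum fun q hq => key c hc q hq
    _ ≤ ∑ c ∈ A1, ∑ q ∈ A ×ˢ A, ∑ a ∈ A, gs H ((a : ℝ) + q.1 + l * ((c : ℝ) + q.2) - N) := by
        refine sum_le_sum fun c _ => sum_le_sum_of_subset_of_nonneg (product_subset_product hsub hsub)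
          fun q _ _ => sum_nonneg fun a _ => (gs_pos hH0 _).le
    _ ≤ ∑ c ∈ A, ∑ q ∈ A ×ˢ A, ∑ a ∈ A, gs H ((a : ℝ) + q.1 + l * ((c : ℝ) + q.2) - N) :=
        sum_le_sum_of_subset_of_nonneg hsub fun c _ _ => sum_nonneg fun q _ =>
          sum_nonneg fun a _ => (gs_pos hH0 _).le
    _ = ∑ p ∈ A ×ˢ A, ∑ q ∈ A ×ˢ A, gs H ((p.1 : ℝ) + q.1 + l * ((p.2 : ℝ) + q.2) - N) := by
        rw [sum_product_right]
        refine sum_congr rfl fun c _ => ?_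
        rw [sum_comm]

/-- the narrow count is tiny if nothing lies within `ρ` -/
theorem narrow {A : Finset ℕ} {τ ρ l N : ℝ} (hτ : 0 < τ) (hρ : 0 ≤ ρ)
    (h : ∀ a ∈ A, ∀ b ∈ A, ∀ c ∈ A, ∀ d ∈ A, ρ < |((a : ℝ) + b) + l * ((c : ℝ) + d) - N|) :
    ∑ p ∈ A ×ˢ A, ∑ q ∈ A ×ˢ A, gs τ ((p.1 : ℝ) + q.1 + l * ((p.2 : ℝ) + q.2) - N) ≤
      (A.card : ℝ) ^ 4 * ((1 / τ) * Real.exp (-(Real.pi * (ρ / τ) ^ 2))) := by
  calc _ ≤ ∑ p ∈ A ×ˢ A, ∑ q ∈ A ×ˢ A, ((1 / τ) * Real.exp (-(Real.pi * (ρ / τ) ^ 2))) := by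
        refine sum_le_sum fun p hp => sum_le_sum fun q hq => ?_
        rw [mem_product] at hp hq
        have h1 := h p.1 hp.1 q.1 hq.1 p.2 hp.2 q.2 hq.2
        unfold gs
        apply mul_le_mul_of_nonneg_left _ (by positivity)
        rw [Real.exp_le_exp, neg_le_neg_iff, div_pow, mul_div_assoc]
        apply mul_le_mul_of_nonneg_left _ Real.pi_pos.le
        apply div_le_div_of_nonneg_right _ (by positivity)
        rw [← sq_abs ((p.1 : ℝ) + q.1 + l * ((p.2 : ℝ) + q.2) - N)]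
        exact pow_le_pow_left₀ hρ h1.le 2
    _ = _ := by
        rw [sum_const, sum_const, card_product, nsmul_eq_mul, nsmul_eq_mul]
        push_cast
        ring

end Pool.Agent.X114.WM
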