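import Mathlib
import Pool.Agent.X114.WM.Top

/-! One dyadic stage. -/

set_option autoImplicit false

namespace Pool.Agent.X114.WM

open Finset MeasureTheory Filter Topology
open Pool.Agent.X114.WR

theorem ratio {p Q B c R cT L τi T E : ℝ} {k : ℕ} (hk : 2 ≤ k) (hp : 1 ≤ p) (hQ : 0 < Q)
    (hB : 0 < B) (hc : 0 < c) (hcT : 0 < cT) (hR : 0 < R) (hL : 0 ≤ L) (hτ : 0 ≤ τi)
    (hE : E ≤ (R * p ^ 2 * Q) ^ 2 * (τi + 5 * p ^ (2 * k - 1) * L / B ^ 2))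
    (hT : cT * p ^ 8 * Q ^ 4 / p ^ (2 * k) ≤ T) (hd : c * p ^ (2 * k - 2) ≤ Q * B) :
    E / T ≤ (R ^ 2 / cT) * (p ^ (2 * k - 2) / (p ^ 2 * Q ^ 2) * τi + 5 * L / (c ^ 2 * p)) := by
  have hp0 : 0 < p := by linarith
  set z : ℝ := p ^ (2 * k - 2) with hz
  have hz0 : 0 < z := by positivity
  have e1 : p ^ (2 * k) = p ^ 2 * z := by
    rw [hz, ← pow_add]; congr 1; omega
  have e2 : p ^ (2 * k - 1) = p * z := by
    rw [hz, ← pow_succ']; congr 1; omega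
  rw [e1] at hT
  rw [e2] at hE
  have hT0 : 0 < cT * p ^ 8 * Q ^ 4 / (p ^ 2 * z) := by positivity
  have hE0 : 0 ≤ (R * p ^ 2 * Q) ^ 2 * (τi + 5 * (p * z) * L / B ^ 2) := by positivity
  have h1 : E / T ≤ ((R * p ^ 2 * Q) ^ 2 * (τi + 5 * (p * z) * L / B ^ 2)) /
      (cT * p ^ 8 * Q ^ 4 / (p ^ 2 * z)) := div_le_div₀ hE0 hE hT0 hT
  have h2 : ((R * p ^ 2 * Q) ^ 2 * (τi + 5 * (p * z) * L / B ^ 2)) /
      (cT * p ^ 8 * Q ^ 4 / (p ^ 2 * z)) =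
      (R ^ 2 / cT) * (z / (p ^ 2 * Q ^ 2) * τi + 5 * L * z ^ 2 / (p * (Q * B) ^ 2)) := by
    field_simp
  have h3 : (c * z) ^ 2 ≤ (Q * B) ^ 2 := pow_le_pow_left₀ (by positivity) hd 2
  have h4 : 5 * L * z ^ 2 / (p * (Q * B) ^ 2) ≤ 5 * L / (c ^ 2 * p) := by
    rw [div_le_div_iff₀ (by positivity) (by positivity)]
    have := mul_le_mul_of_nonneg_left h3 (by positivity : 0 ≤ 5 * L * p)
    nlinarith
  rw [h2] at h1
  refine le_trans h1 ?_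
  apply mul_le_mul_of_nonneg_left _ (by positivity)
  linarith

theorem first_term {p Q c κ m : ℝ} {k j : ℕ} (hk : 2 ≤ k) (hp : 1 ≤ p) (hc : 0 < c)
    (hQ : c * (p ^ (2 * k - 2)) ^ (1 - m) ≤ Q) :
    p ^ (2 * k - 2) / (p ^ 2 * Q ^ 2) * (((j : ℝ) + 1) * p ^ (2 * (k : ℝ) * κ)) ≤
      ((j : ℝ) + 1) * p ^ (-(2 * (k : ℝ) * (1 - κ) - 4 * ((k : ℝ) - 1) * m)) / c ^ 2 := by
  have hp0 : 0 < p := by linarith
  have e0 : p ^ (2 * k - 2) = p ^ (2 * (k : ℝ) - 2) := by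
    rw [← Real.rpow_natCast p (2 * k - 2)]
    congr 1
    rw [Nat.cast_sub (by omega)]
    push_cast
    ring
  rw [e0, ← Real.rpow_mul hp0.le] at hQ
  have hQ0 : 0 < Q := lt_of_lt_of_le (by positivity) hQ
  have h1 : (c * p ^ ((2 * (k : ℝ) - 2) * (1 - m))) ^ 2 ≤ Q ^ 2 :=
    pow_le_pow_left₀ (by positivity) hQ 2
  have e1 : (c * p ^ ((2 * (k : ℝ) - 2) * (1 - m))) ^ 2 =
      c ^ 2 * p ^ (2 * ((2 * (k : ℝ) - 2) * (1 - m))) := by
    rw [mul_pow, ← Real.rpow_natCast (p ^ ((2 * (k : ℝ) - 2) * (1 - m))) 2, ← Real.rpow_mul hp0.le]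
    congr 2
    push_cast
    ring
  rw [e1] at h1
  rw [e0]
  have e2 : p ^ 2 = p ^ (2 : ℝ) := by rw [← Real.rpow_natCast p 2]; norm_num
  have h2 : p ^ (2 * (k : ℝ) - 2) / (p ^ 2 * Q ^ 2) ≤
      p ^ (2 * (k : ℝ) - 2) / (p ^ 2 * (c ^ 2 * p ^ (2 * ((2 * (k : ℝ) - 2) * (1 - m))))) := by
    apply div_le_div_of_nonneg_left (by positivity) (by positivity)
    exact mul_le_mul_of_nonneg_left h1 (by positivity)
  have h3 := mul_le_mul_of_nonneg_right h2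
    (by positivity : 0 ≤ ((j : ℝ) + 1) * p ^ (2 * (k : ℝ) * κ))
  refine le_trans h3 (le_of_eq ?_)
  have e3 : p ^ (-(2 * (k : ℝ) * (1 - κ) - 4 * ((k : ℝ) - 1) * m)) =
      p ^ (2 * (k : ℝ) - 2) * p ^ (2 * (k : ℝ) * κ) /
        (p ^ (2 : ℝ) * p ^ (2 * ((2 * (k : ℝ) - 2) * (1 - m)))) := by
    rw [← Real.rpow_add hp0, ← Real.rpow_add hp0, ← Real.rpow_sub hp0]
    congr 1
    ring
  rw [e2, e3]
  field_simp

theorem small_exp (K W : ℝ) : ∀ᶠ j : ℕ in atTop,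
    W * ((j : ℝ) + 1) * ((2 : ℝ) ^ j) ^ K * Real.exp (-(Real.pi * ((j : ℝ) + 1) ^ 2)) < 1 := by
  have h1 : Tendsto (fun j : ℕ => |W| * Real.exp (-(j : ℝ))) atTop (𝓝 (|W| * 0)) :=
    (Real.tendsto_exp_neg_atTop_nhds_zero.comp tendsto_natCast_atTop_atTop).const_mul _
  rw [mul_zero] at h1
  filter_upwards [h1.eventually_lt_const one_pos, eventually_ge_atTop (⌈|K| + 2⌉₊)] with j hj1 hj2
  have hjK : |K| + 2 ≤ j := le_trans (Nat.le_ceil _) (by exact_mod_cast hj2)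
  have hj0 : (0 : ℝ) ≤ j := Nat.cast_nonneg j
  have h2 : ((2 : ℝ) ^ j) ^ K ≤ Real.exp (|K| * j) := by
    have e : ((2 : ℝ) ^ j) = Real.exp (Real.log 2 * j) := by
      rw [mul_comm, Real.exp_nat_mul, Real.exp_log (by norm_num)]
    rw [e, ← Real.exp_mul, Real.exp_le_exp]
    have hlog : Real.log 2 ≤ 1 := by
      have := Real.log_two_lt_d9; linarith
    have hlog0 : 0 ≤ Real.log 2 := (Real.log_pos (by norm_num)).le
    calc Real.log 2 * j * K ≤ Real.log 2 * j * |K| :=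
          mul_le_mul_of_nonneg_left (le_abs_self K) (by positivity)
      _ ≤ 1 * j * |K| := by
          apply mul_le_mul_of_nonneg_right _ (abs_nonneg _)
          exact mul_le_mul_of_nonneg_right hlog hj0
      _ = |K| * j := by ring
  have h3 : (j : ℝ) + 1 ≤ Real.exp j := Real.add_one_le_exp _
  have h4 : Real.exp (-(Real.pi * ((j : ℝ) + 1) ^ 2)) ≤ Real.exp (-(j : ℝ) ^ 2) := by
    rw [Real.exp_le_exp, neg_le_neg_iff]
    have := Real.pi_gt_three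
    nlinarith
  calc W * ((j : ℝ) + 1) * ((2 : ℝ) ^ j) ^ K * Real.exp (-(Real.pi * ((j : ℝ) + 1) ^ 2))
      ≤ |W| * ((j : ℝ) + 1) * ((2 : ℝ) ^ j) ^ K * Real.exp (-(Real.pi * ((j : ℝ) + 1) ^ 2)) := by
        gcongr
        exact le_abs_self W
    _ ≤ |W| * Real.exp j * Real.exp (|K| * j) * Real.exp (-(j : ℝ) ^ 2) := by
        gcongr
    _ = |W| * Real.exp (j + |K| * j + -(j : ℝ) ^ 2) := by
        rw [Real.exp_add, Real.exp_add]; ring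
    _ ≤ |W| * Real.exp (-(j : ℝ)) := by
        gcongr
        nlinarith
    _ < 1 := hj1

theorem Rep_Top {k s P Y : ℕ} {S : Finset ℕ} (hS : ∀ a ∈ S, Rep k s a) {n : ℕ}
    (hn : n ∈ Top k P Y S) : Rep k (s + 1) n := by
  obtain ⟨x, a, ha, hb, hc, rfl⟩ := mem_Top.mp hn
  have := (hS a hc).add (Rep.one (k := k) (x := x) (by omega : 0 < x))
  rwa [add_comm a] at this

theorem stage {k s M C : ℕ} (hk : 2 ≤ k) (hC : C = (2 ^ k + 1) * (1 + 2 * M) + 3 ^ k) {κ : ℝ}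
    (hκ1 : -(1 - 1 / (2 * (k : ℝ))) ≤ κ) (hκ2 : κ < 1 - 2 * (1 - 1 / (k : ℝ)) ^ (s + 1)) :
    ∃ δ D : ℝ, 0 < δ ∧ ∃ j0 : ℕ, ∀ j : ℕ, j0 ≤ j → ∃ f : ℝ → ℝ, (∀ l, 0 ≤ f l) ∧ Integrable f ∧
      ∫ l, f l ≤ D * (((j : ℝ) + 1) * ((2 : ℝ) ^ j) ^ (-δ)) ∧
      ∀ l : ℝ, 0 ≤ l → l ≤ M → f l < Real.exp (-(Real.pi * (M : ℝ) ^ 2)) / 2 →
        ∀ N : ℝ, (C : ℝ) * (4 ^ j) ^ k ≤ N → N ≤ 4 ^ k * (C : ℝ) * (4 ^ j) ^ k →
          ∃ u v : ℕ, Rep k (s + 1 + (s + 1)) u ∧ Rep k (s + 1 + (s + 1)) v ∧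
            |(u : ℝ) + l * v - N| ≤ ((2 : ℝ) ^ j) ^ (-(2 * (k : ℝ) * κ)) := by
  have hk0 : (0 : ℝ) < k := by exact_mod_cast (by omega : 0 < k)
  have hk2 : (2 : ℝ) ≤ k := by exact_mod_cast hk
  obtain ⟨c, hc, N0, HS⟩ := sep_ranges k hk s
  set m : ℝ := (1 - 1 / (k : ℝ)) ^ s with hm
  have hmk : (1 - 1 / (k : ℝ)) ^ (s + 1) = (1 - 1 / (k : ℝ)) * m := by rw [pow_succ, hm]; ring
  set δ0 : ℝ := 2 * (k : ℝ) * (1 - κ) - 4 * ((k : ℝ) - 1) * m with hδ0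
  have hδpos : 0 < δ0 := by
    have e : δ0 = 2 * (k : ℝ) * (1 - 2 * (1 - 1 / (k : ℝ)) ^ (s + 1) - κ) := by
      rw [hδ0, hmk]; field_simp; ring
    rw [e]
    have : 0 < 1 - 2 * (1 - 1 / (k : ℝ)) ^ (s + 1) - κ := by linarith
    positivity
  obtain ⟨R, hR⟩ : ∃ R : ℕ, R = 4 * C + 1 := ⟨_, rfl⟩
  have hR1 : (1 : ℝ) ≤ R := by rw [hR]; push_cast; linarith [(Nat.cast_nonneg C : (0 : ℝ) ≤ C)]
  have hR0 : (0 : ℝ) < R := by linarith
  set cT : ℝ := Real.exp (-Real.pi) / (2 * k * (R : ℝ) ^ (k - 1)) with hcT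
  have hcT0 : 0 < cT := by rw [hcT]; positivity
  set D1 : ℝ := 1 + Real.log 2 + k * Real.log R + 2 * k with hD1
  have hlR : 0 ≤ Real.log R := Real.log_nonneg hR1
  have hl2 : 0 < Real.log 2 := Real.log_pos (by norm_num)
  have hD10 : 0 ≤ D1 := by rw [hD1]; positivity
  refine ⟨min δ0 1, (R : ℝ) ^ 2 / cT * ((1 + 5 * D1) / c ^ 2), lt_min hδpos one_pos, ?_⟩
  have ev1 := small_exp (2 * (k : ℝ) * κ + 2 * k) (2 * (R : ℝ) ^ 4 / cT)
  have ev2 : ∀ᶠ j : ℕ in atTop, N0 ≤ (4 ^ j) ^ (k - 1) := by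
    filter_upwards [eventually_ge_atTop N0] with j hj
    calc N0 ≤ j := hj
      _ ≤ 4 ^ j := (Nat.lt_pow_self (by norm_num : 1 < 4)).le
      _ = (4 ^ j) ^ 1 := (pow_one _).symm
      _ ≤ (4 ^ j) ^ (k - 1) := Nat.pow_le_pow_right (Nat.pos_of_ne_zero (by positivity)) (by omega)
  have ev3 : ∀ᶠ j : ℕ in atTop, 2 * (k : ℝ) * (R : ℝ) ^ (k - 1) ≤ (2 : ℝ) ^ j :=
    (tendsto_pow_atTop_atTop_of_one_lt (by norm_num : (1 : ℝ) < 2)).eventually_ge_atTop _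
  obtain ⟨j0, hj0⟩ := eventually_atTop.mp (ev1.and (ev2.and ev3))
  refine ⟨j0, fun j hj => ?_⟩
  obtain ⟨hs1, hs2, hs3⟩ := hj0 j hj
  obtain ⟨S, B, hS, hBN, hSc⟩ := HS _ hs2
  set p : ℝ := (2 : ℝ) ^ j with hp
  have hp1 : 1 ≤ p := one_le_pow₀ (by norm_num)
  have hp0 : 0 < p := by linarith
  obtain ⟨P, hP⟩ : ∃ P : ℕ, P = 4 ^ j := ⟨_, rfl⟩
  rw [← hP] at hs2 hS hBN hSc
  have hPp : (P : ℝ) = p ^ 2 := by
    rw [hP, hp]; push_cast
    rw [← pow_mul, mul_comm, pow_mul]; norm_num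
  have hP1 : 1 ≤ P := by rw [hP]; exact Nat.one_le_pow _ _ (by norm_num)
  have hBr : (1 : ℝ) ≤ B := by exact_mod_cast hS.one
  have hB0 : (0 : ℝ) < B := by linarith
  -- size of S
  have hQpos : (0 : ℝ) < (S.card : ℝ) := by
    refine lt_of_lt_of_le ?_ hSc
    have : (0 : ℝ) < ((P ^ (k - 1) : ℕ) : ℝ) := by exact_mod_cast (by positivity : 0 < P ^ (k - 1))
    positivity
  set Q : ℝ := (S.card : ℝ) with hQ
  have hPk : ((P ^ (k - 1) : ℕ) : ℝ) = p ^ (2 * k - 2) := by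
    push_cast
    rw [hPp, ← pow_mul]; congr 1; omega
  rw [hPk] at hSc
  have hdens : c * p ^ (2 * k - 2) ≤ Q * B := by
    have := hS.dens
    rw [hPk] at this
    exact this
  -- J
  set J : ℕ := ⌊p / (k * (R : ℝ) ^ (k - 1))⌋₊ with hJ
  have hJ1 : (J : ℝ) ≤ p / (k * (R : ℝ) ^ (k - 1)) := Nat.floor_le (by positivity)
  have hJ2 : p / (2 * k * (R : ℝ) ^ (k - 1)) ≤ J := by
    have h1 := Nat.lt_floor_add_one (p / (k * (R : ℝ) ^ (k - 1)))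
    rw [← hJ] at h1
    have h2 : 1 ≤ p / (2 * k * (R : ℝ) ^ (k - 1)) := by
      rw [le_div_iff₀ (by positivity), one_mul]; exact hs3
    have h3 : p / (k * (R : ℝ) ^ (k - 1)) = 2 * (p / (2 * k * (R : ℝ) ^ (k - 1))) := by
      field_simp
    rw [h3] at h1
    linarith
  have hJP : J ≤ P := by
    have h1 : (J : ℝ) ≤ P := by
      refine le_trans hJ1 ?_
      rw [hPp, div_le_iff₀ (by positivity)]
      have h2 : 1 ≤ (R : ℝ) ^ (k - 1) := one_le_pow₀ hR1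
      have h3 : 1 ≤ (k : ℝ) * (R : ℝ) ^ (k - 1) := by nlinarith
      nlinarith
    exact_mod_cast h1
  -- H
  set H : ℝ := p ^ (2 * k - 1) with hH
  have hH0 : 0 < H := by positivity
  have hHP : (P : ℝ) ^ (k - 1) ≤ H := by
    have : (P : ℝ) ^ (k - 1) = p ^ (2 * k - 2) := by rw [← hPk]; push_cast; rfl
    rw [this, hH]
    exact pow_le_pow_right₀ hp1 (by omega)
  have hHJ : (J : ℝ) * k * ((R : ℝ) * P) ^ (k - 1) ≤ H := by
    have e1 : ((R : ℝ) * P) ^ (k - 1) = (R : ℝ) ^ (k - 1) * p ^ (2 * k - 2) := by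
      rw [mul_pow, ← hPk]; push_cast; rfl
    have e2 : H = p * p ^ (2 * k - 2) := by
      rw [hH, ← pow_succ']; congr 1; omega
    rw [e1, e2]
    have h1 : (J : ℝ) * (k * (R : ℝ) ^ (k - 1)) ≤ p := by
      rwa [le_div_iff₀ (by positivity)] at hJ1
    calc (J : ℝ) * k * ((R : ℝ) ^ (k - 1) * p ^ (2 * k - 2))
        = (J : ℝ) * (k * (R : ℝ) ^ (k - 1)) * p ^ (2 * k - 2) := by ring
      _ ≤ p * p ^ (2 * k - 2) := mul_le_mul_of_nonneg_right h1 (by positivity)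
  have hBH : (B : ℝ) ≤ H := by
    have : (B : ℝ) ≤ ((P ^ (k - 1) : ℕ) : ℝ) := by exact_mod_cast hBN
    push_cast at this
    linarith
  -- ρ and τ
  set ρ : ℝ := p ^ (-(2 * (k : ℝ) * κ)) with hρ
  have hρ0 : 0 < ρ := by positivity
  set τ : ℝ := ρ / ((j : ℝ) + 1) with hτ
  have hτ0 : 0 < τ := by positivity
  have hτH : τ ≤ H := by
    have h1 : τ ≤ ρ := div_le_self hρ0.le (by linarith [(Nat.cast_nonneg j : (0 : ℝ) ≤ j)])
    refine le_trans h1 ?_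
    rw [hρ, hH, ← Real.rpow_natCast p (2 * k - 1)]
    apply Real.rpow_le_rpow_of_exponent_le hp1
    rw [Nat.cast_sub (by omega)]
    push_cast
    have h2 : -(2 * (k : ℝ) * κ) = 2 * k * (-κ) := by ring
    have h3 : 2 * (k : ℝ) * (-κ) ≤ 2 * k * (1 - 1 / (2 * (k : ℝ))) :=
      mul_le_mul_of_nonneg_left (by linarith) (by positivity)
    have h4 : 2 * (k : ℝ) * (1 - 1 / (2 * (k : ℝ))) = 2 * k - 1 := by field_simp
    linarith
  have hτi : 1 / τ = ((j : ℝ) + 1) * p ^ (2 * (k : ℝ) * κ) := by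
    rw [hτ, hρ, Real.rpow_neg hp0.le]
    field_simp
  -- the set A
  obtain ⟨A, hA⟩ : ∃ A : Finset ℕ, A = Top k P (R * P) S := ⟨_, rfl⟩
  have hsep : ∀ a ∈ A, ∀ a' ∈ A, a < a' → a + B ≤ a' := by
    intro a ha a' ha' hlt
    rw [hA] at ha ha'
    obtain ⟨x, b, hx1, hx2, hb, rfl⟩ := mem_Top.mp ha
    obtain ⟨x', b', hx1', hx2', hb', rfl⟩ := mem_Top.mp ha'
    exact sep_step hk hBN hS.le hS.sep hx1 hx1' hb hb' hlt
  obtain ⟨X, hX⟩ : ∃ X : ℕ, X = 2 * (R * P) ^ k := ⟨_, rfl⟩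
  have hRP1 : 1 ≤ R * P := by
    have : 1 ≤ R := by exact_mod_cast hR1
    exact Nat.mul_pos this hP1
  have hAX : ∀ a ∈ A, a ≤ X := by
    intro a ha
    rw [hA] at ha
    obtain ⟨x, b, hx1, hx2, hb, rfl⟩ := mem_Top.mp ha
    have h1 : x ^ k ≤ (R * P) ^ k := Nat.pow_le_pow_left hx2 _
    have h2 : b ≤ P ^ (k - 1) := hS.le b hb
    have h3 : P ^ (k - 1) ≤ (R * P) ^ (k - 1) := by
      apply Nat.pow_le_pow_left
      exact Nat.le_mul_of_pos_left _ (by exact_mod_cast hR0)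
    have h4 : (R * P) ^ (k - 1) ≤ (R * P) ^ k := Nat.pow_le_pow_right hRP1 (by omega)
    rw [hX]
    omega
  have hAcard : (A.card : ℝ) ≤ R * p ^ 2 * Q := by
    rw [hA, card_Top hk le_rfl hS.le]
    have h1 : (((R * P - P) * S.card : ℕ) : ℝ) ≤ ((R * P * S.card : ℕ) : ℝ) := by
      exact_mod_cast Nat.mul_le_mul_right _ (Nat.sub_le _ _)
    refine le_trans h1 ?_
    push_cast
    rw [hPp]
  -- T
  set T : ℝ := ((P * S.card : ℕ) : ℝ) ^ 3 * ((J * S.card : ℕ) : ℝ) *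
    ((1 / H) * Real.exp (-Real.pi)) with hT
  have hTlow : cT * p ^ 8 * Q ^ 4 / p ^ (2 * k) ≤ T := by
    have e1 : T = (p ^ 2 * Q) ^ 3 * (J * Q) * ((1 / H) * Real.exp (-Real.pi)) := by
      rw [hT]; push_cast; rw [hPp]
    have e2 : p ^ (2 * k) = p * H := by
      rw [hH, ← pow_succ']; congr 1; omega
    have e3 : cT * p ^ 8 * Q ^ 4 / p ^ (2 * k) =
        (p ^ 2 * Q) ^ 3 * ((p / (2 * k * (R : ℝ) ^ (k - 1))) * Q) *
          ((1 / H) * Real.exp (-Real.pi)) := by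
      rw [e2, hcT]
      field_simp
    rw [e1, e3]
    gcongr
  have hT0 : 0 < T := lt_of_lt_of_le (by positivity) hTlow
  refine ⟨fun l => Real.exp (-(Real.pi * l ^ 2)) * Jf A τ H l / T, fun l => ?_, ?_, ?_, ?_⟩
  · have := J_nonneg A hτ0 hτH l
    positivity
  · exact (integrable_J A hτ0 hH0).div_const T
  · rw [integral_div]
    have hE := energy hS.one hAX hsep hτ0 hτH hBH
    have hlogX : 1 + Real.log X ≤ D1 * ((j : ℝ) + 1) := by
      have e1 : Real.log X = Real.log 2 + k * (Real.log R + Real.log P) := by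
        rw [hX]
        push_cast
        have hPr : (0 : ℝ) < P := by exact_mod_cast hP1
        rw [Real.log_mul (by norm_num) (by positivity), Real.log_pow,
          Real.log_mul hR0.ne' hPr.ne']
      have e2 : Real.log P = 2 * j * Real.log 2 := by
        rw [hPp, hp, ← pow_mul, Real.log_pow]; push_cast; ring
      have h3 : Real.log 2 ≤ 1 := by
        have := Real.log_two_lt_d9; linarith
      have hj0' : (0 : ℝ) ≤ j := Nat.cast_nonneg j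
      rw [e1, e2, hD1]
      have h4 : (k : ℝ) * (2 * j * Real.log 2) ≤ k * (2 * j * 1) := by
        gcongr
      have h5 : 0 ≤ (1 + Real.log 2 + k * Real.log R) * (j : ℝ) := by positivity
      nlinarith
    have hlog0 : 0 ≤ Real.log X := Real.log_natCast_nonneg X
    have hE' : ∫ l : ℝ, Real.exp (-(Real.pi * l ^ 2)) * Jf A τ H l ≤
        (R * p ^ 2 * Q) ^ 2 * (((j : ℝ) + 1) * p ^ (2 * (k : ℝ) * κ) +
          5 * p ^ (2 * k - 1) * (D1 * ((j : ℝ) + 1)) / (B : ℝ) ^ 2) := by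
      refine le_trans hE ?_
      rw [hτi, ← hH]
      gcongr
    have h := ratio hk hp1 hQpos hB0 hc hcT0 hR0 (by positivity) (by positivity) hE' hTlow hdens
    refine le_trans h ?_
    have hf := first_term (κ := κ) (j := j) hk hp1 hc hSc
    rw [mul_assoc ((R : ℝ) ^ 2 / cT)]
    apply mul_le_mul_of_nonneg_left _ (by positivity)
    have h1 : p ^ (-δ0) ≤ p ^ (-(min δ0 1)) :=
      Real.rpow_le_rpow_of_exponent_le hp1 (neg_le_neg (min_le_left _ _))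
    have h2 : 1 / p ≤ p ^ (-(min δ0 1)) := by
      rw [one_div, ← Real.rpow_neg_one]
      exact Real.rpow_le_rpow_of_exponent_le hp1 (neg_le_neg (min_le_right _ _))
    rw [← hδ0] at hf
    have h3 : ((j : ℝ) + 1) * p ^ (-δ0) / c ^ 2 ≤
        ((j : ℝ) + 1) * p ^ (-(min δ0 1)) / c ^ 2 := by gcongr
    have h4 : 5 * (D1 * ((j : ℝ) + 1)) / (c ^ 2 * p) ≤
        5 * (D1 * ((j : ℝ) + 1)) / c ^ 2 * p ^ (-(min δ0 1)) := by
      have : 5 * (D1 * ((j : ℝ) + 1)) / (c ^ 2 * p) = 5 * (D1 * ((j : ℝ) + 1)) / c ^ 2 * (1 / p) := by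
        field_simp
      rw [this]
      gcongr
    have h5 : (1 + 5 * D1) / c ^ 2 * (((j : ℝ) + 1) * p ^ (-(min δ0 1))) =
        ((j : ℝ) + 1) * p ^ (-(min δ0 1)) / c ^ 2 +
          5 * (D1 * ((j : ℝ) + 1)) / c ^ 2 * p ^ (-(min δ0 1)) := by
      ring
    rw [h5]
    linarith
  · intro l hl0 hlM hf N hN1 hN2
    by_contra hcon
    push Not at hcon
    have hJT : Jf A τ H l < T / 2 := by
      have h1 : Real.exp (-(Real.pi * (M : ℝ) ^ 2)) ≤ Real.exp (-(Real.pi * l ^ 2)) := by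
        rw [Real.exp_le_exp, neg_le_neg_iff]
        gcongr
      have h2 : Real.exp (-(Real.pi * l ^ 2)) * Jf A τ H l / T <
          Real.exp (-(Real.pi * l ^ 2)) / 2 := by
        refine lt_of_lt_of_le hf ?_
        linarith
      rw [div_lt_iff₀ hT0] at h2
      have h3 := Real.exp_pos (-(Real.pi * l ^ 2))
      have h4 : Real.exp (-(Real.pi * l ^ 2)) * Jf A τ H l <
          Real.exp (-(Real.pi * l ^ 2)) * (T / 2) := by
        calc _ < _ := h2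
          _ = _ := by ring
      exact lt_of_mul_lt_mul_left h4 h3.le
    have hPj : ((4 : ℝ) ^ j) ^ k = (P : ℝ) ^ k := by rw [hP]; push_cast; rfl
    rw [hPj] at hN1 hN2
    have hw := wide hk hS.le hP1 hC hR hJP hHP hHJ hl0 hlM hN1 hN2
    rw [← hA, ← hT] at hw
    have hcmp := compare A hτ0 hτH l N
    have hnar := narrow (A := A) (τ := τ) (ρ := ρ) (l := l) (N := N) hτ0 hρ0.le (by
      intro a ha b hb c' hc' d hd
      rw [hA] at ha hb hc' hd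
      have h1 := hcon (a + b) (c' + d) ((Rep_Top hS.rep ha).add (Rep_Top hS.rep hb))
        ((Rep_Top hS.rep hc').add (Rep_Top hS.rep hd))
      push_cast at h1
      exact h1)
    have hρτ : ρ / τ = (j : ℝ) + 1 := by
      rw [hτ]; field_simp
    rw [hρτ, hτi] at hnar
    have h5 : T / 2 < (A.card : ℝ) ^ 4 * (((j : ℝ) + 1) * p ^ (2 * (k : ℝ) * κ) *
        Real.exp (-(Real.pi * ((j : ℝ) + 1) ^ 2))) := by linarith
    have h6 : (A.card : ℝ) ^ 4 * (((j : ℝ) + 1) * p ^ (2 * (k : ℝ) * κ) *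
        Real.exp (-(Real.pi * ((j : ℝ) + 1) ^ 2))) ≤
        (R * p ^ 2 * Q) ^ 4 * (((j : ℝ) + 1) * p ^ (2 * (k : ℝ) * κ) *
        Real.exp (-(Real.pi * ((j : ℝ) + 1) ^ 2))) := by
      gcongr
    have h7 : (cT * p ^ 8 * Q ^ 4 / p ^ (2 * k)) / 2 < (R * p ^ 2 * Q) ^ 4 *
        (((j : ℝ) + 1) * p ^ (2 * (k : ℝ) * κ) *
        Real.exp (-(Real.pi * ((j : ℝ) + 1) ^ 2))) := by linarith
    have e1 : p ^ (2 * (k : ℝ) * κ + 2 * k) = p ^ (2 * (k : ℝ) * κ) * p ^ (2 * k) := by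
      rw [Real.rpow_add hp0, ← Real.rpow_natCast p (2 * k)]
      push_cast
      rfl
    rw [e1] at hs1
    have h8 : 2 * (R : ℝ) ^ 4 / cT * ((j : ℝ) + 1) * (p ^ (2 * (k : ℝ) * κ) * p ^ (2 * k)) *
        Real.exp (-(Real.pi * ((j : ℝ) + 1) ^ 2)) * (cT * p ^ 8 * Q ^ 4 / p ^ (2 * k) / 2) =
        (R * p ^ 2 * Q) ^ 4 * (((j : ℝ) + 1) * p ^ (2 * (k : ℝ) * κ) *
        Real.exp (-(Real.pi * ((j : ℝ) + 1) ^ 2))) := by
      field_simp
    have h9 : 0 < cT * p ^ 8 * Q ^ 4 / p ^ (2 * k) / 2 := by positivity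
    have h10 := mul_lt_mul_of_pos_right hs1 h9
    rw [h8, one_mul] at h10
    linarith

end Pool.Agent.X114.WM
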