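import Mathlib
import Pool.Agent.X114.WM.Stage

/-! Almost every slope. -/

set_option autoImplicit false

namespace Pool.Agent.X114.WM

open Finset MeasureTheory Filter Topology
open Pool.Agent.X114.WR

theorem ae_tendsto_zero {f : ℕ → ℝ → ℝ} (h0 : ∀ j l, 0 ≤ f j l) (hi : ∀ j, Integrable (f j))
    {b : ℕ → ℝ} (hb : Summable b) (hfb : ∀ j, ∫ l, f j l ≤ b j) :
    ∀ᵐ l : ℝ, Tendsto (fun j => f j l) atTop (𝓝 0) := by
  have h1 : ∫⁻ l : ℝ, ∑' j, ENNReal.ofReal (f j l) ≤ ∑' j, ENNReal.ofReal (b j) := by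
    rw [lintegral_tsum fun j => (hi j).aestronglyMeasurable.aemeasurable.ennreal_ofReal]
    apply ENNReal.tsum_le_tsum
    intro j
    rw [← ofReal_integral_eq_lintegral_ofReal (hi j) (ae_of_all _ (h0 j))]
    exact ENNReal.ofReal_le_ofReal (hfb j)
  have h2 : ∑' j, ENNReal.ofReal (b j) ≠ ⊤ := by
    have hbn : ∀ j, 0 ≤ b j := fun j => le_trans (integral_nonneg (h0 j)) (hfb j)
    rw [← ENNReal.ofReal_tsum_of_nonneg hbn hb]
    exact ENNReal.ofReal_ne_top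
  have h3 : ∫⁻ l : ℝ, ∑' j, ENNReal.ofReal (f j l) ≠ ⊤ := ne_top_of_le_ne_top h2 h1
  have h4 : ∀ᵐ l : ℝ, ∑' j, ENNReal.ofReal (f j l) < ⊤ := by
    apply ae_lt_top' _ h3
    exact AEMeasurable.ennreal_tsum
      fun j => (hi j).aestronglyMeasurable.aemeasurable.ennreal_ofReal
  filter_upwards [h4] with l hl
  have h5 := ENNReal.tendsto_atTop_zero_of_tsum_ne_top hl.ne
  have h6 := (ENNReal.tendsto_toReal ENNReal.zero_ne_top).comp h5
  simp only [ENNReal.toReal_zero] at h6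
  refine h6.congr fun j => ?_
  simp only [Function.comp_apply]
  exact ENNReal.toReal_ofReal (h0 j l)

theorem summable_bound (δ D : ℝ) (hδ : 0 < δ) (j0 : ℕ) :
    Summable (fun j : ℕ => D * ((((j0 + j : ℕ) : ℝ) + 1) * ((2 : ℝ) ^ (j0 + j)) ^ (-δ))) := by
  apply Summable.mul_left
  have hr : ‖(2 : ℝ) ^ (-δ)‖ < 1 := by
    rw [Real.norm_of_nonneg (by positivity)]
    exact Real.rpow_lt_one_of_one_lt_of_neg (by norm_num) (by linarith)
  have h1 := summable_pow_mul_geometric_of_norm_lt_one 1 hr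
  have h2 := summable_pow_mul_geometric_of_norm_lt_one 0 hr
  have h3 := h1.add h2
  have h4 : ∀ j : ℕ, ((2 : ℝ) ^ j) ^ (-δ) = ((2 : ℝ) ^ (-δ)) ^ j := by
    intro j
    rw [← Real.rpow_natCast 2 j, ← Real.rpow_mul (by norm_num), ← Real.rpow_natCast _ j,
      ← Real.rpow_mul (by norm_num), mul_comm]
  have h5 : Summable (fun j : ℕ => (((j : ℕ) : ℝ) + 1) * ((2 : ℝ) ^ j) ^ (-δ)) := by
    refine h3.congr fun j => ?_
    rw [h4]
    ring
  have h6 := (summable_nat_add_iff j0).mpr h5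
  refine h6.congr fun j => ?_
  rw [add_comm j j0]

theorem metric {k s : ℕ} (hk : 2 ≤ k) {κ : ℝ} (hκ : κ < 1 - 2 * (1 - 1 / (k : ℝ)) ^ (s + 1)) :
    ∀ᵐ l : ℝ, 0 ≤ l → ∀ᶠ N : ℝ in atTop, ∃ u v : ℕ, Rep k (s + 1 + (s + 1)) u ∧
      Rep k (s + 1 + (s + 1)) v ∧ |(u : ℝ) + l * v - N| ≤ N ^ (-κ) := by
  have hk0 : (0 : ℝ) < k := by exact_mod_cast (by omega : 0 < k)
  have hk2 : (2 : ℝ) ≤ k := by exact_mod_cast hk
  have hlow : -(1 - 1 / (2 * (k : ℝ))) < 1 - 2 * (1 - 1 / (k : ℝ)) ^ (s + 1) := by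
    have h1 : (1 : ℝ) / k ≤ 1 := by rw [div_le_one hk0]; linarith
    have h2 : (0 : ℝ) < 1 / k := by positivity
    have h3 : (1 - 1 / (k : ℝ)) ^ (s + 1) ≤ (1 - 1 / (k : ℝ)) ^ 1 :=
      pow_le_pow_of_le_one (by linarith) (by linarith) (by omega)
    rw [pow_one] at h3
    have h4 : 1 / (2 * (k : ℝ)) = (1 / k) / 2 := by field_simp
    rw [h4]
    linarith
  obtain ⟨κ', hκ1, hκ2⟩ := exists_between (max_lt hκ hlow)
  have hκ'1 : κ < κ' := lt_of_le_of_lt (le_max_left _ _) hκ1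
  have hκ'2 : -(1 - 1 / (2 * (k : ℝ))) ≤ κ' := (lt_of_le_of_lt (le_max_right _ _) hκ1).le
  have main : ∀ M : ℕ, ∀ᵐ l : ℝ, 0 ≤ l → l ≤ M → ∀ᶠ N : ℝ in atTop, ∃ u v : ℕ,
      Rep k (s + 1 + (s + 1)) u ∧ Rep k (s + 1 + (s + 1)) v ∧
        |(u : ℝ) + l * v - N| ≤ N ^ (-κ) := by
    intro M
    obtain ⟨C, hC⟩ : ∃ C : ℕ, C = (2 ^ k + 1) * (1 + 2 * M) + 3 ^ k := ⟨_, rfl⟩
    have hC1 : (1 : ℝ) ≤ C := by
      have : 1 ≤ C := by
        rw [hC]
        have : 1 ≤ 3 ^ k := Nat.one_le_pow _ _ (by norm_num)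
        omega
      exact_mod_cast this
    have hC0 : (0 : ℝ) < C := by linarith
    obtain ⟨δ, D, hδ, j0, hst⟩ := stage hk hC hκ'2 hκ2
    choose f hf0 hfi hfb hfc using fun j : ℕ => hst (j0 + j) (by omega)
    have hae := ae_tendsto_zero hf0 hfi (summable_bound δ D hδ j0) hfb
    filter_upwards [hae] with l hl hl0 hlM
    have hexp : 0 < Real.exp (-(Real.pi * (M : ℝ) ^ 2)) / 2 := by positivity
    obtain ⟨j1, hj1⟩ := eventually_atTop.mp (hl.eventually_lt_const hexp)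
    -- the loss in the exponent
    have hbig : ∀ᶠ j : ℕ in atTop, (4 ^ k * (C : ℝ)) ^ |κ| ≤ (((4 : ℝ) ^ k) ^ j) ^ (κ' - κ) := by
      have h1 : Tendsto (fun j : ℕ => ((4 : ℝ) ^ k) ^ j) atTop atTop :=
        tendsto_pow_atTop_atTop_of_one_lt (one_lt_pow₀ (by norm_num) (by omega))
      exact ((tendsto_rpow_atTop (by linarith : 0 < κ' - κ)).comp h1).eventually_ge_atTop _
    obtain ⟨j2, hj2⟩ := eventually_atTop.mp hbig
    filter_upwards [eventually_ge_atTop ((C : ℝ) * ((4 : ℝ) ^ k) ^ (j0 + j1 + j2))] with N hN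
    have h4k : (1 : ℝ) < 4 ^ k := one_lt_pow₀ (by norm_num) (by omega)
    have hN1 : 1 ≤ N / C := by
      rw [le_div_iff₀ hC0, one_mul]
      refine le_trans ?_ hN
      exact le_mul_of_one_le_right hC0.le (one_le_pow₀ h4k.le)
    obtain ⟨j, hja, hjb⟩ := exists_nat_pow_near hN1 h4k
    have hjbig : j0 + j1 + j2 ≤ j := by
      have h1 : ((4 : ℝ) ^ k) ^ (j0 + j1 + j2) ≤ N / C := by
        rw [le_div_iff₀ hC0, mul_comm]; exact hN
      have h2 := lt_of_le_of_lt h1 hjb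
      have h3 := (pow_lt_pow_iff_right₀ h4k).mp h2
      omega
    have hq : ((4 : ℝ) ^ j) ^ k = ((4 : ℝ) ^ k) ^ j := by
      rw [← pow_mul, ← pow_mul, mul_comm]
    have hNa : (C : ℝ) * (4 ^ j) ^ k ≤ N := by
      rw [hq, mul_comm]
      rwa [le_div_iff₀ hC0] at hja
    have hNb : N ≤ 4 ^ k * (C : ℝ) * (4 ^ j) ^ k := by
      rw [hq]
      rw [div_lt_iff₀ hC0, pow_succ] at hjb
      linarith
    have hjj : j0 + (j - j0) = j := by omega
    have hfj := hfc (j - j0) l hl0 hlM (hj1 (j - j0) (by omega)) N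
    rw [hjj] at hfj
    obtain ⟨u, v, hu, hv, huv⟩ := hfj hNa hNb
    refine ⟨u, v, hu, hv, le_trans huv ?_⟩
    -- compare exponents
    set q : ℝ := ((4 : ℝ) ^ k) ^ j with hqdef
    have hq0 : 0 < q := by positivity
    have hq1 : 1 ≤ q := one_le_pow₀ h4k.le
    have e1 : ((2 : ℝ) ^ j) ^ (-(2 * (k : ℝ) * κ')) = q ^ (-κ') := by
      have e2 : q = ((2 : ℝ) ^ j) ^ (2 * (k : ℝ)) := by
        rw [hqdef, show (2 : ℝ) * (k : ℝ) = ((2 * k : ℕ) : ℝ) by push_cast; ring,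
          Real.rpow_natCast, ← pow_mul, ← pow_mul, show (4 : ℝ) = 2 ^ 2 by norm_num, ← pow_mul]
        congr 1
        ring
      rw [e2, ← Real.rpow_mul (by positivity)]
      congr 1
      ring
    rw [e1]
    have hN0 : 0 < N := by
      have : 0 < N / C := by linarith
      have := mul_pos this hC0
      rwa [div_mul_cancel₀ _ hC0.ne'] at this
    set t : ℝ := N / q with ht
    have hNt : N = t * q := by rw [ht]; field_simp
    have ht1 : 1 ≤ t := by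
      rw [ht, le_div_iff₀ hq0, one_mul]
      rw [hq] at hNa
      nlinarith
    have ht2 : t ≤ 4 ^ k * (C : ℝ) := by
      rw [ht, div_le_iff₀ hq0]
      rw [hq] at hNb
      exact hNb
    have ht0 : 0 < t := by linarith
    have h1 := hj2 j (by omega)
    have h2 : t ^ |κ| ≤ q ^ (κ' - κ) :=
      le_trans (Real.rpow_le_rpow ht0.le ht2 (abs_nonneg _)) h1
    have h3 : q ^ (-(κ' - κ)) ≤ t ^ (-|κ|) := by
      rw [Real.rpow_neg hq0.le, Real.rpow_neg ht0.le]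
      exact inv_anti₀ (by positivity) h2
    have h4 : t ^ (-|κ|) ≤ t ^ (-κ) :=
      Real.rpow_le_rpow_of_exponent_le ht1 (neg_le_neg (le_abs_self κ))
    rw [hNt, Real.mul_rpow ht0.le hq0.le]
    calc q ^ (-κ') = q ^ (-(κ' - κ)) * q ^ (-κ) := by
          rw [← Real.rpow_add hq0]; congr 1; ring
      _ ≤ t ^ (-κ) * q ^ (-κ) :=
          mul_le_mul_of_nonneg_right (le_trans h3 h4) (by positivity)
  have hall := ae_all_iff.mpr main
  filter_upwards [hall] with l hl hl0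
  obtain ⟨M, hM⟩ := exists_nat_ge l
  exact hl M hl0 hM

theorem metric_floor {k s : ℕ} (hk : 2 ≤ k) (hs : Real.log 2 * k ≤ ((s + 1 : ℕ) : ℝ)) :
    ∀ᵐ l : ℝ, 0 ≤ l → ∀ᶠ n : ℕ in atTop, ∃ u v : ℕ, Rep k (s + 1 + (s + 1)) u ∧
      Rep k (s + 1 + (s + 1)) v ∧ ⌊(u : ℝ) + l * v⌋₊ = n := by
  have hk0 : (0 : ℝ) < k := by exact_mod_cast (by omega : 0 < k)
  have hk2 : (2 : ℝ) ≤ k := by exact_mod_cast hk
  have hlt : 0 < 1 - 2 * (1 - 1 / (k : ℝ)) ^ (s + 1) := by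
    have h1 : 1 - 1 / (k : ℝ) < Real.exp (-(1 / (k : ℝ))) := by
      have := Real.add_one_lt_exp (x := -(1 / (k : ℝ))) (by
        have : 0 < 1 / (k : ℝ) := by positivity
        linarith)
      linarith
    have h0 : 0 ≤ 1 - 1 / (k : ℝ) := by
      rw [sub_nonneg, div_le_one hk0]; linarith
    have h2 : (1 - 1 / (k : ℝ)) ^ (s + 1) < (Real.exp (-(1 / (k : ℝ)))) ^ (s + 1) :=
      pow_lt_pow_left₀ h1 h0 (by omega)
    rw [← Real.exp_nat_mul] at h2
    have h3 : Real.exp (((s + 1 : ℕ) : ℝ) * (-(1 / (k : ℝ)))) ≤ Real.exp (-(Real.log 2)) := by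
      rw [Real.exp_le_exp]
      have : Real.log 2 ≤ ((s + 1 : ℕ) : ℝ) / k := by
        rw [le_div_iff₀ hk0]; exact hs
      have e : ((s + 1 : ℕ) : ℝ) * (-(1 / (k : ℝ))) = -(((s + 1 : ℕ) : ℝ) / k) := by ring
      rw [e]; linarith
    rw [Real.exp_neg, Real.exp_log (by norm_num)] at h3
    linarith
  obtain ⟨κ, hκ0, hκ⟩ := exists_between hlt
  filter_upwards [metric (s := s) hk hκ] with l hl hl0
  have hlN := hl hl0
  have h1 : Tendsto (fun N : ℝ => N ^ (-κ)) atTop (𝓝 0) := tendsto_rpow_neg_atTop hκ0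
  have h2 : ∀ᶠ N : ℝ in atTop, N ^ (-κ) < 1 / 2 := h1.eventually_lt_const (by norm_num)
  have h3 : Tendsto (fun n : ℕ => (n : ℝ) + 1 / 2) atTop atTop :=
    tendsto_atTop_add_const_right _ _ tendsto_natCast_atTop_atTop
  filter_upwards [h3.eventually (hlN.and h2)] with n hn
  obtain ⟨⟨u, v, hu, hv, huv⟩, hsm⟩ := hn
  refine ⟨u, v, hu, hv, ?_⟩
  have h4 := abs_lt.mp (lt_of_le_of_lt huv hsm)
  rw [Nat.floor_eq_iff (by positivity)]
  constructor <;> linarith [h4.1, h4.2]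

end Pool.Agent.X114.WM
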